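import Mathlib

set_option autoImplicit false

/-! # Rational curves with `r` terms in a variety that is not uniruled -/

namespace Pool.Agent.H533R3.SL

open Finset

/-- the curve `T ↦ ∑ c j T ^ (l j)`, a vector of polynomials in one variable -/
noncomputable def cur {R : Type} [CommRing R] {n r : ℕ} (c : Fin r → Fin (n + 1) → R)
    (l : Fin r → ℕ) (i : Fin (n + 1)) : Polynomial R :=
  ∑ j, Polynomial.C (c j i) * Polynomial.X ^ (l j)

/-- The projective variety over `k` with (prime, homogeneous) ideal `I` is uniruled: over some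
extension field `L` of `k` there is a nonconstant map `p` from the line to the variety, given by
polynomials, such that `p 1` is a generic point of the variety over `k`. -/
def Uniruled {k : Type} [Field k] {n : ℕ} (I : Ideal (MvPolynomial (Fin (n + 1)) k)) : Prop :=
  ∃ (L : Type) (_ : Field L) (_ : Algebra k L) (p : Fin (n + 1) → Polynomial L),
    (∀ F ∈ I, MvPolynomial.aeval p F = 0) ∧
    (∀ G : MvPolynomial (Fin (n + 1)) k, (∃ e, G.IsHomogeneous e) → G ∉ I →
      MvPolynomial.aeval (fun i => (p i).eval 1) G ≠ 0) ∧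
    ∃ i j, p i * Polynomial.C ((p j).eval 1) ≠ p j * Polynomial.C ((p i).eval 1)

theorem transfer_sum {R : Type} [CommRing R] {ι : Type} (S : Finset ι) (g : ι → R)
    (e e' : ι → ℕ) (h : ∀ a ∈ S, ∀ b ∈ S, e a = e b → e' a = e' b)
    (h0 : ∑ a ∈ S, Polynomial.C (g a) * Polynomial.X ^ (e a) = 0) :
    ∑ a ∈ S, Polynomial.C (g a) * Polynomial.X ^ (e' a) = 0 := by
  classical
  let φ : ℕ → ℕ := fun w => if h : ∃ a ∈ S, e a = w then e' h.choose else 0
  have hφ : ∀ a ∈ S, φ (e a) = e' a := by
    intro a ha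
    have hex : ∃ b ∈ S, e b = e a := ⟨a, ha, rfl⟩
    simp only [φ, dif_pos hex]
    exact h _ hex.choose_spec.1 _ ha hex.choose_spec.2
  let Λ : Polynomial R →ₗ[R] Polynomial R :=
    Polynomial.lsum (fun m => Polynomial.monomial (φ m))
  have hΛ : ∀ (a : R) (m : ℕ), Λ (Polynomial.C a * Polynomial.X ^ m) =
      Polynomial.C a * Polynomial.X ^ (φ m) := by
    intro a m
    rw [Polynomial.C_mul_X_pow_eq_monomial, Polynomial.C_mul_X_pow_eq_monomial]
    show Polynomial.lsum _ _ = _
    rw [Polynomial.lsum_apply, Polynomial.sum_monomial_index]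
    simp
  have h1 := congrArg Λ h0
  rw [map_sum, map_zero] at h1
  rw [← h1]
  refine Finset.sum_congr rfl fun a ha => ?_
  rw [hΛ, hφ a ha]

variable {n r : ℕ}

theorem cur_eval_one {R : Type} [CommRing R] (c : Fin r → Fin (n + 1) → R) (l : Fin r → ℕ)
    (i : Fin (n + 1)) : (cur c l i).eval 1 = ∑ j, c j i := by
  unfold cur
  rw [Polynomial.eval_finsetSum]
  refine Finset.sum_congr rfl fun j _ => ?_
  simp

/-- `F (∑ c j U_j)` -/
noncomputable def GU {k L : Type} [Field k] [Field L] [Algebra k L]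
    (c : Fin r → Fin (n + 1) → L) (F : MvPolynomial (Fin (n + 1)) k) :
    MvPolynomial (Fin r) L :=
  MvPolynomial.aeval (fun i => ∑ j, MvPolynomial.C (c j i) * MvPolynomial.X j) F

theorem aeval_cur {k L : Type} [Field k] [Field L] [Algebra k L]
    (c : Fin r → Fin (n + 1) → L) (l : Fin r → ℕ) (F : MvPolynomial (Fin (n + 1)) k) :
    MvPolynomial.aeval (cur c l) F =
      ∑ α ∈ (GU c F).support, Polynomial.C (MvPolynomial.coeff α (GU c F)) *
        Polynomial.X ^ (∑ j, α j * l j) := by
  have h1 : MvPolynomial.aeval (cur c l) F =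
      (MvPolynomial.aeval (fun j => (Polynomial.X : Polynomial L) ^ (l j)) :
        MvPolynomial (Fin r) L →ₐ[L] Polynomial L) (GU c F) := by
    have h2 := MvPolynomial.comp_aeval (R := k)
      (fun i => ∑ j, MvPolynomial.C (c j i) * MvPolynomial.X j : Fin (n + 1) →
        MvPolynomial (Fin r) L)
      ((MvPolynomial.aeval (fun j => (Polynomial.X : Polynomial L) ^ (l j)) :
        MvPolynomial (Fin r) L →ₐ[L] Polynomial L).restrictScalars k)
    have h3 := congrArg (fun f => f F) h2
    have h4 : MvPolynomial.aeval (R := k) (fun i => ((MvPolynomial.aeval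
        (fun j => (Polynomial.X : Polynomial L) ^ (l j)) :
        MvPolynomial (Fin r) L →ₐ[L] Polynomial L).restrictScalars k)
        (∑ j, MvPolynomial.C (c j i) * MvPolynomial.X j)) F = MvPolynomial.aeval (cur c l) F := by
      congr 2
      funext i
      unfold cur
      rw [map_sum]
      refine Finset.sum_congr rfl fun j _ => ?_
      simp
    rw [← h4]
    exact h3.symm
  rw [h1, MvPolynomial.aeval_def, MvPolynomial.eval₂_eq']
  refine Finset.sum_congr rfl fun α _ => ?_
  congr 1
  rw [← Finset.prod_pow_eq_pow_sum]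
  refine Finset.prod_congr rfl fun j _ => ?_
  rw [← pow_mul, mul_comm]

theorem GU_deg {k L : Type} [Field k] [Field L] [Algebra k L]
    (c : Fin r → Fin (n + 1) → L) (F : MvPolynomial (Fin (n + 1)) k) (e : ℕ)
    (hF : F.IsHomogeneous e) (α : Fin r →₀ ℕ) (hα : α ∈ (GU c F).support) (j : Fin r) :
    α j ≤ e := by
  have h1 : (GU c F).IsHomogeneous (1 * e) := by
    unfold GU
    refine hF.aeval _ (fun i => ?_)
    refine MvPolynomial.IsHomogeneous.sum _ _ _ fun j _ => ?_
    simpa using (MvPolynomial.isHomogeneous_C (Fin r) (c j i)).mul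
      (MvPolynomial.isHomogeneous_X L j)
  rw [one_mul] at h1
  have h2 := h1 (MvPolynomial.mem_support_iff.1 hα)
  rw [Finsupp.weight_apply, Finsupp.sum_fintype _ _ (by simp)] at h2
  have h3 : ∑ j, α j = e := by simpa using h2
  rw [← h3]
  exact Finset.single_le_sum (f := fun j => α j) (fun _ _ => Nat.zero_le _) (Finset.mem_univ j)

/-- the coincidences of the exponents of the monomials of degree at most `D` in each variable -/
def pat (D : ℕ) (l : Fin r → ℕ) : Set ((Fin r → Fin (D + 1)) × (Fin r → Fin (D + 1))) :=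
  {p | ∑ j, (p.1 j : ℕ) * l j = ∑ j, (p.2 j : ℕ) * l j}

theorem pat_imp (D : ℕ) (l l' : Fin r → ℕ) (h : pat D l = pat D l') (α β : Fin r → ℕ)
    (hα : ∀ j, α j ≤ D) (hβ : ∀ j, β j ≤ D) (he : ∑ j, α j * l j = ∑ j, β j * l j) :
    ∑ j, α j * l' j = ∑ j, β j * l' j := by
  have h1 : ((fun j => ⟨α j, Nat.lt_succ_of_le (hα j)⟩,
      fun j => ⟨β j, Nat.lt_succ_of_le (hβ j)⟩) :
      (Fin r → Fin (D + 1)) × (Fin r → Fin (D + 1))) ∈ pat D l := he
  rw [h] at h1
  exact h1

theorem pat_eq_imp (D : ℕ) (hD : 1 ≤ D) (l l' : Fin r → ℕ) (h : pat D l = pat D l')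
    (a b : Fin r) (he : l a = l b) : l' a = l' b := by
  classical
  have h1 := pat_imp D l l' h (fun j => if j = a then 1 else 0) (fun j => if j = b then 1 else 0)
    (fun j => by split_ifs <;> omega) (fun j => by split_ifs <;> omega) (by simpa using he)
  simpa using h1

theorem cur_zero_transfer {k L : Type} [Field k] [Field L] [Algebra k L] (D : ℕ)
    (l l' : Fin r → ℕ) (h : pat D l = pat D l')
    (c : Fin r → Fin (n + 1) → L) (F : MvPolynomial (Fin (n + 1)) k) (e : ℕ) (he : e ≤ D)
    (hF : F.IsHomogeneous e) (h0 : MvPolynomial.aeval (cur c l) F = 0) :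
    MvPolynomial.aeval (cur c l') F = 0 := by
  rw [aeval_cur] at h0 ⊢
  refine transfer_sum _ _ (fun α : Fin r →₀ ℕ => ∑ j, α j * l j) _ ?_ h0
  intro α hα β hβ hab
  exact pat_imp D l l' h α β (fun j => (GU_deg c F e hF α hα j).trans he)
    (fun j => (GU_deg c F e hF β hβ j).trans he) hab

theorem cur_const_transfer {L : Type} [Field L] (D : ℕ) (hD : 1 ≤ D)
    (l l' : Fin r → ℕ) (h : pat D l = pat D l')
    (c : Fin r → Fin (n + 1) → L) (i i' : Fin (n + 1)) (u u' : L)
    (h0 : cur c l i * Polynomial.C u = cur c l i' * Polynomial.C u') :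
    cur c l' i * Polynomial.C u = cur c l' i' * Polynomial.C u' := by
  have key : ∀ l : Fin r → ℕ, cur c l i * Polynomial.C u - cur c l i' * Polynomial.C u' =
      ∑ j, Polynomial.C (c j i * u - c j i' * u') * Polynomial.X ^ (l j) := by
    intro l
    unfold cur
    rw [Finset.sum_mul, Finset.sum_mul, ← Finset.sum_sub_distrib]
    refine Finset.sum_congr rfl fun j _ => ?_
    rw [Polynomial.C_sub, Polynomial.C_mul, Polynomial.C_mul]
    ring
  rw [← sub_eq_zero, key] at h0 ⊢
  exact transfer_sum _ _ l l' (fun a _ b _ hab => pat_eq_imp D hD l l' h a b hab) h0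

/-- for a fixed vector of exponents, the nonconstant curves lie in a hypersurface -/
theorem exists_G {k : Type} [Field k] (FF : Set (MvPolynomial (Fin (n + 1)) k))
    (hprime : (Ideal.span FF).IsPrime) (hnu : ¬ Uniruled (Ideal.span FF)) (l : Fin r → ℕ)
    (i i' : Fin (n + 1)) (w : ℕ) :
    ∃ G : MvPolynomial (Fin (n + 1)) k, (∃ e, G.IsHomogeneous e) ∧ G ∉ Ideal.span FF ∧
      ∀ (L : Type) [Field L] [Algebra k L] (c : Fin r → Fin (n + 1) → L),
        (∀ F ∈ FF, MvPolynomial.aeval (cur c l) F = 0) →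
        (cur c l i * Polynomial.C (∑ j, c j i') - cur c l i' * Polynomial.C (∑ j, c j i)).coeff w
          ≠ 0 → MvPolynomial.aeval (fun i => ∑ j, c j i) G = 0 := by
  classical
  by_contra hcon
  push Not at hcon
  let R : Type := MvPolynomial (Fin r × Fin (n + 1)) k
  let ct : Fin r → Fin (n + 1) → R := fun j i => MvPolynomial.X (j, i)
  let xt : Fin (n + 1) → R := fun i => ∑ j, ct j i
  let N : R := (cur ct l i * Polynomial.C (xt i') - cur ct l i' * Polynomial.C (xt i)).coeff w
  let J : Ideal R := Ideal.span {a | ∃ F ∈ FF, ∃ t : ℕ, a = (MvPolynomial.aeval (cur ct l) F).coeff t}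
  -- specialisation
  have hcur : ∀ (L : Type) [Field L] [Algebra k L] (s : R →ₐ[k] L) (i : Fin (n + 1)),
      Polynomial.mapAlgHom s (cur ct l i) = cur (fun j i => s (ct j i)) l i := by
    intro L _ _ s i
    unfold cur
    rw [map_sum]
    refine Finset.sum_congr rfl fun j _ => ?_
    simp
  have hFs : ∀ (L : Type) [Field L] [Algebra k L] (s : R →ₐ[k] L)
      (F : MvPolynomial (Fin (n + 1)) k),
      Polynomial.mapAlgHom s (MvPolynomial.aeval (cur ct l) F) =
        MvPolynomial.aeval (cur (fun j i => s (ct j i)) l) F := by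
    intro L _ _ s F
    have h1 := congrArg (fun f => f F) (MvPolynomial.comp_aeval (R := k) (cur ct l)
      (Polynomial.mapAlgHom s))
    refine Eq.trans h1 ?_
    show MvPolynomial.aeval (fun i => Polynomial.mapAlgHom s (cur ct l i)) F = _
    congr 2
    funext i
    exact hcur L s i
  have hxs : ∀ (L : Type) [Field L] [Algebra k L] (s : R →ₐ[k] L)
      (G : MvPolynomial (Fin (n + 1)) k),
      s (MvPolynomial.aeval xt G) =
        MvPolynomial.aeval (fun i => ∑ j, (fun j i => s (ct j i)) j i) G := by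
    intro L _ _ s G
    have h1 := congrArg (fun f => f G) (MvPolynomial.comp_aeval (R := k) xt s)
    refine Eq.trans h1 ?_
    show MvPolynomial.aeval (fun i => s (xt i)) G = _
    congr 2
    funext i
    simp only [xt, map_sum]
  have hNs : ∀ (L : Type) [Field L] [Algebra k L] (s : R →ₐ[k] L),
      s N = (cur (fun j i => s (ct j i)) l i * Polynomial.C (∑ j, (fun j i => s (ct j i)) j i') -
        cur (fun j i => s (ct j i)) l i' * Polynomial.C (∑ j, (fun j i => s (ct j i)) j i)).coeff
          w := by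
    intro L _ _ s
    have h1 : s N = (Polynomial.mapAlgHom s (cur ct l i * Polynomial.C (xt i') -
        cur ct l i' * Polynomial.C (xt i))).coeff w := by
      rw [Polynomial.coe_mapAlgHom, Polynomial.coeff_map]
      rfl
    rw [h1, map_sub, map_mul, map_mul, hcur, hcur]
    congr 3
    · simp [xt, map_sum]
    · simp [xt, map_sum]
  have h1I : (1 : MvPolynomial (Fin (n + 1)) k) ∉ Ideal.span FF := by
    intro h
    exact hprime.ne_top ((Ideal.eq_top_iff_one _).2 h)
  let M : Submonoid R :=
    { carrier := {a | ∃ (G : MvPolynomial (Fin (n + 1)) k) (t : ℕ), (∃ e, G.IsHomogeneous e) ∧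
        G ∉ Ideal.span FF ∧ a = MvPolynomial.aeval xt G * N ^ t}
      one_mem' := ⟨1, 0, ⟨0, MvPolynomial.isHomogeneous_one _ _⟩, h1I, by simp⟩
      mul_mem' := by
        rintro a b ⟨G, t, ⟨e, he⟩, hG, rfl⟩ ⟨G', t', ⟨e', he'⟩, hG', rfl⟩
        refine ⟨G * G', t + t', ⟨e + e', he.mul he'⟩, ?_, ?_⟩
        · intro h
          rcases hprime.mem_or_mem h with h | h
          · exact hG h
          · exact hG' h
        · rw [map_mul, pow_add]
          ring }
  have hdisj : Disjoint (J : Set R) M := by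
    rw [Set.disjoint_left]
    rintro a haJ ⟨G, t, hGh, hGI, rfl⟩
    obtain ⟨L, iL, iA, c, hz, hN, hG⟩ := hcon G hGh hGI
    let s : R →ₐ[k] L := MvPolynomial.aeval (fun q : Fin r × Fin (n + 1) => c q.1 q.2)
    have hsc : (fun j i => s (ct j i)) = c := by
      funext j i
      exact MvPolynomial.aeval_X (fun q : Fin r × Fin (n + 1) => c q.1 q.2) (j, i)
    have hJ : J ≤ RingHom.ker s.toRingHom := by
      rw [Ideal.span_le]
      rintro _ ⟨F, hF, t, rfl⟩
      show s _ = 0
      have h1 := hFs L s F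
      rw [hsc, hz F hF] at h1
      have h2 := congrArg (fun P => Polynomial.coeff P t) h1
      simp only [Polynomial.coe_mapAlgHom, Polynomial.coeff_map, Polynomial.coeff_zero] at h2
      exact h2
    have h2 : s (MvPolynomial.aeval xt G * N ^ t) = 0 := hJ haJ
    rw [map_mul, map_pow, hxs, hNs, hsc] at h2
    exact mul_ne_zero hG (pow_ne_zero _ hN) h2
  obtain ⟨P, hP, hJP, hPM⟩ := Ideal.exists_le_prime_disjoint J M hdisj
  let L : Type := FractionRing (R ⧸ P)
  let s : R →ₐ[k] L := (IsScalarTower.toAlgHom k (R ⧸ P) (FractionRing (R ⧸ P))).comp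
    (Ideal.Quotient.mkₐ k P)
  have hs0 : ∀ a : R, s a = 0 ↔ a ∈ P := by
    intro a
    show algebraMap (R ⧸ P) (FractionRing (R ⧸ P)) (Ideal.Quotient.mk P a) = 0 ↔ _
    rw [FaithfulSMul.algebraMap_eq_zero_iff, Ideal.Quotient.eq_zero_iff_mem]
  apply hnu
  refine ⟨L, inferInstance, inferInstance, cur (fun j i => s (ct j i)) l, ?_, ?_, ?_⟩
  · have hI : Ideal.span FF ≤ RingHom.ker
        (MvPolynomial.aeval (R := k) (cur (fun j i => s (ct j i)) l)).toRingHom := by
      rw [Ideal.span_le]
      intro F hF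
      show MvPolynomial.aeval (cur (fun j i => s (ct j i)) l) F = 0
      rw [← hFs L s F]
      ext t
      rw [Polynomial.coe_mapAlgHom, Polynomial.coeff_map, Polynomial.coeff_zero]
      refine (hs0 _).2 (hJP (Ideal.subset_span ⟨F, hF, t, rfl⟩))
    intro F hF
    exact hI hF
  · intro G hGh hGI h0
    have h1 : (fun i => (cur (fun j i => s (ct j i)) l i).eval 1) =
        fun i => ∑ j, (fun j i => s (ct j i)) j i := by
      funext i
      exact cur_eval_one _ _ _
    rw [h1, ← hxs L s G, hs0] at h0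
    exact Set.disjoint_left.1 hPM h0 ⟨G, 0, hGh, hGI, by simp⟩
  · refine ⟨i, i', fun h0 => ?_⟩
    rw [cur_eval_one, cur_eval_one] at h0
    have h1 := hNs L s
    rw [h0, sub_self, Polynomial.coeff_zero, hs0] at h1
    exact Set.disjoint_left.1 hPM h1 ⟨1, 1, ⟨0, MvPolynomial.isHomogeneous_one _ _⟩, h1I,
      by simp⟩

end Pool.Agent.H533R3.SL
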