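import Mathlib
import Pool.Agent.H533R3.SL.Cur
import Pool.Agent.H533R3.SL.Dich

set_option autoImplicit false

/-! # Sparse points of a variety that is not uniruled: assembly -/

namespace Pool.Agent.H533R3.SL

open Finset NumberField Pool.Agent.H458.Sp

/-- the ideal over `k` generated by the forms in `FF` -/
noncomputable def idealK {k : Type} [Field k] {n : ℕ}
    (FF : Finset (MvPolynomial (Fin (n + 1)) (𝓞 k))) : Ideal (MvPolynomial (Fin (n + 1)) k) :=
  Ideal.span ((MvPolynomial.map (algebraMap (𝓞 k) k)) ''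
    (FF : Set (MvPolynomial (Fin (n + 1)) (𝓞 k))))

variable {n r : ℕ}

theorem cur_diff {R : Type} [CommRing R] (c : Fin r → Fin (n + 1) → R) (l : Fin r → ℕ)
    (i i' : Fin (n + 1)) (u u' : R) :
    cur c l i * Polynomial.C u - cur c l i' * Polynomial.C u' =
      ∑ j, Polynomial.C (c j i * u - c j i' * u') * Polynomial.X ^ (l j) := by
  unfold cur
  rw [Finset.sum_mul, Finset.sum_mul, ← Finset.sum_sub_distrib]
  refine Finset.sum_congr rfl fun j _ => ?_
  rw [Polynomial.C_sub, Polynomial.C_mul, Polynomial.C_mul]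
  ring

theorem exists_exponent {R : Type} [CommRing R] (c : Fin r → Fin (n + 1) → R) (l : Fin r → ℕ)
    (i i' : Fin (n + 1)) (u u' : R)
    (h : cur c l i * Polynomial.C u ≠ cur c l i' * Polynomial.C u') :
    ∃ j, (cur c l i * Polynomial.C u - cur c l i' * Polynomial.C u').coeff (l j) ≠ 0 := by
  classical
  by_contra hcon
  push Not at hcon
  apply h
  rw [← sub_eq_zero]
  ext w
  rw [Polynomial.coeff_zero]
  by_cases hw : ∃ j, l j = w
  · obtain ⟨j, rfl⟩ := hw
    exact hcon j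
  · push Not at hw
    rw [cur_diff, Polynomial.finsetSum_coeff]
    refine Finset.sum_eq_zero fun j _ => ?_
    rw [Polynomial.coeff_C_mul_X_pow, if_neg (fun h => hw j h.symm)]

/-- a vector of exponents with a given pattern -/
noncomputable def rep (D : ℕ) (π : Set ((Fin r → Fin (D + 1)) × (Fin r → Fin (D + 1)))) :
    Fin r → ℕ := by
  classical
  exact if h : ∃ l : Fin r → ℕ, pat D l = π then h.choose else fun _ => 0

theorem pat_rep (D : ℕ) (l : Fin r → ℕ) : pat D (rep D (pat D l)) = pat D l := by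
  have h : ∃ l' : Fin r → ℕ, pat D l' = pat D l := ⟨l, rfl⟩
  unfold rep
  rw [dif_pos h]
  exact h.choose_spec

/-- all the nonconstant curves with `r` terms lie in one hypersurface -/
theorem exists_hyper {k : Type} [Field k] (FF : Set (MvPolynomial (Fin (n + 1)) k))
    (hprime : (Ideal.span FF).IsPrime) (hnu : ¬ Uniruled (Ideal.span FF)) (d : ℕ) (hd : 1 ≤ d)
    (hFF : ∀ F ∈ FF, ∃ e, e ≤ d ∧ F.IsHomogeneous e) (r : ℕ) :
    ∃ G : MvPolynomial (Fin (n + 1)) k, (∃ e, G.IsHomogeneous e) ∧ G ∉ Ideal.span FF ∧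
      ∀ (L : Type) [Field L] [Algebra k L] (c : Fin r → Fin (n + 1) → L) (l : Fin r → ℕ),
        (∀ F ∈ FF, MvPolynomial.aeval (cur c l) F = 0) →
        (∃ i i', cur c l i * Polynomial.C (∑ j, c j i') ≠
          cur c l i' * Polynomial.C (∑ j, c j i)) →
        MvPolynomial.aeval (fun i => ∑ j, c j i) G = 0 := by
  classical
  choose H hH1 hH2 hH3 using fun (q : Set ((Fin r → Fin (d + 1)) × (Fin r → Fin (d + 1))) ×
    Fin (n + 1) × Fin (n + 1) × Fin r) =>
    exists_G FF hprime hnu (rep d q.1) q.2.1 q.2.2.1 (rep d q.1 q.2.2.2)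
  choose E hE using hH1
  refine ⟨∏ q, H q, ⟨∑ q, E q, MvPolynomial.IsHomogeneous.prod _ _ _ fun q _ => hE q⟩, ?_, ?_⟩
  · rw [hprime.prod_mem_iff]
    push Not
    intro q _
    exact hH2 q
  · intro L _ _ c l hz ⟨i, i', hc⟩
    have hp := pat_rep d l
    have hz' : ∀ F ∈ FF, MvPolynomial.aeval (cur c (rep d (pat d l))) F = 0 := by
      intro F hF
      obtain ⟨e, he, hFe⟩ := hFF F hF
      exact cur_zero_transfer d l _ hp.symm c F e he hFe (hz F hF)
    have hc' : cur c (rep d (pat d l)) i * Polynomial.C (∑ j, c j i') ≠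
        cur c (rep d (pat d l)) i' * Polynomial.C (∑ j, c j i) := by
      intro h
      exact hc (cur_const_transfer d hd _ l hp c i i' _ _ h)
    obtain ⟨j, hj⟩ := exists_exponent c _ i i' _ _ hc'
    have h1 := hH3 (pat d l, i, i', j) L c hz' hj
    rw [map_prod]
    exact Finset.prod_eq_zero (Finset.mem_univ (pat d l, i, i', j)) h1

/-- **Sparse points outside a hypersurface are small**, over all finite extensions. -/
theorem strong_small (k : Type) [Field k] [NumberField k] (n : ℕ)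
    (FF : Finset (MvPolynomial (Fin (n + 1)) (𝓞 k))) (d : ℕ) (hd : 1 ≤ d)
    (hhom : ∀ F ∈ FF, ∃ e, e ≤ d ∧ F.IsHomogeneous e) (hprime : (idealK FF).IsPrime)
    (hnu : ¬ Uniruled (idealK FF)) (r : ℕ) (hr : 1 ≤ r) :
    ∃ G : MvPolynomial (Fin (n + 1)) k, (∃ e, G.IsHomogeneous e) ∧ G ∉ idealK FF ∧
      ∀ (K : Type) [Field K] [NumberField K] [Algebra k K] (A B : ℝ), 1 ≤ A → 1 ≤ B →
        (∀ F ∈ FF, nrm (MvPolynomial.map (algebraMap (𝓞 k) (𝓞 K)) F) ≤ A) →
        ∀ (b : ℕ), 2 ≤ b → ∀ (m : Fin r → ℕ) (v : Fin r → Fin (n + 1) → 𝓞 K),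
          (∀ j i, hs (v j i) ≤ B) → ∀ x : Fin (n + 1) → 𝓞 K, x ≠ 0 →
          (∀ i, x i = ∑ j, (b : 𝓞 K) ^ (m j) * v j i) →
          (∀ F ∈ FF, MvPolynomial.aeval x F = 0) →
          MvPolynomial.aeval (fun i => algebraMap (𝓞 K) K (x i)) G ≠ 0 →
          ∃ y : Fin (n + 1) → 𝓞 K, y ≠ 0 ∧ (∀ i j, x i * y j = x j * y i) ∧
            ∀ i, hs (y i) ≤
              Real.exp ((8 * d * (6 + 8 * d + 4 * Real.log A)) ^ r *
                (1 + Real.log B + Real.log (A * (r * B) ^ d))) := by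
  classical
  obtain ⟨G, hG1, hG2, hG3⟩ := exists_hyper
    ((MvPolynomial.map (algebraMap (𝓞 k) k)) ''
      (FF : Set (MvPolynomial (Fin (n + 1)) (𝓞 k)))) hprime hnu d hd (by
      rintro _ ⟨F, hF, rfl⟩
      obtain ⟨e, he, hFe⟩ := hhom F hF
      exact ⟨e, he, hFe.map _⟩) r
  refine ⟨G, hG1, hG2, ?_⟩
  intro K _ _ _ A B hA hB hnrm b hb m v hv x hx0 hx hzero hGx
  have hFK : ∀ F' ∈ (MvPolynomial.map (algebraMap (𝓞 k) (𝓞 K))) ''
      (FF : Set (MvPolynomial (Fin (n + 1)) (𝓞 k))),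
      (∃ e, e ≤ d ∧ F'.IsHomogeneous e) ∧ nrm F' ≤ A := by
    rintro _ ⟨F, hF, rfl⟩
    obtain ⟨e, he, hFe⟩ := hhom F hF
    exact ⟨⟨e, he, hFe.map _⟩, hnrm F hF⟩
  have hzK : ∀ F' ∈ (MvPolynomial.map (algebraMap (𝓞 k) (𝓞 K))) ''
      (FF : Set (MvPolynomial (Fin (n + 1)) (𝓞 k))), MvPolynomial.aeval x F' = 0 := by
    rintro _ ⟨F, hF, rfl⟩
    rw [MvPolynomial.aeval_map_algebraMap]
    exact hzero F hF
  rcases dichotomyL_all _ d hd A hA hFK b hb r hr B hB m v hv x hx0 hx hzK with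
    ⟨lam, hcur, i, i', hc⟩ | h
  · exfalso
    apply hGx
    let c : Fin r → Fin (n + 1) → K := fun j i => algebraMap (𝓞 K) K ((b : 𝓞 K) ^ (m j) * v j i)
    let ψ : Polynomial (𝓞 K) →+* Polynomial K := Polynomial.mapRingHom (algebraMap (𝓞 K) K)
    have hψ : ∀ i, ψ (curve b m lam v i) = cur c lam i := by
      intro i
      unfold curve cur
      rw [map_sum]
      refine Finset.sum_congr rfl fun j _ => ?_
      simp [ψ, c]
    have hxc : (fun i => algebraMap (𝓞 K) K (x i)) = fun i => ∑ j, c j i := by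
      funext i
      rw [hx i, map_sum]
    rw [hxc]
    refine hG3 K c lam ?_ ⟨i, i', ?_⟩
    · rintro _ ⟨F, hF, rfl⟩
      have h1 := congrArg ψ (hcur _ ⟨F, hF, rfl⟩)
      rw [map_zero, MvPolynomial.aeval_map_algebraMap, MvPolynomial.aeval_def,
        MvPolynomial.hom_eval₂] at h1
      rw [MvPolynomial.aeval_def, MvPolynomial.eval₂_map, ← h1]
      have h2 : ψ ∘ curve b m lam v = cur c lam := funext hψ
      have h3 : (algebraMap k (Polynomial K)).comp (algebraMap (𝓞 k) k) =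
          ψ.comp (algebraMap (𝓞 k) (Polynomial (𝓞 K))) := by
        refine RingHom.ext fun a => ?_
        show algebraMap k (Polynomial K) (algebraMap (𝓞 k) k a) =
          ψ (algebraMap (𝓞 k) (Polynomial (𝓞 K)) a)
        rw [Polynomial.algebraMap_apply, Polynomial.algebraMap_apply]
        have h5 : ψ (Polynomial.C (algebraMap (𝓞 k) (𝓞 K) a)) =
            Polynomial.C (algebraMap (𝓞 K) K (algebraMap (𝓞 k) (𝓞 K) a)) := by
          show Polynomial.map _ (Polynomial.C _) = _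
          rw [Polynomial.map_C]
        rw [h5]
        rfl
      rw [h3]
      congr 1
      exact h2.symm
    · intro h
      apply hc
      have hinj : Function.Injective ψ := Polynomial.map_injective _
        (FaithfulSMul.algebraMap_injective (𝓞 K) K)
      apply hinj
      rw [map_mul, map_mul, hψ, hψ]
      have h4 : ∀ i, ψ (Polynomial.C (x i)) = Polynomial.C (∑ j, c j i) := by
        intro i
        have h6 : algebraMap (𝓞 K) K (x i) = ∑ j, c j i := congrFun hxc i
        rw [← h6]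
        simp [ψ]
      rw [h4, h4]
      exact h
  · exact h

end Pool.Agent.H533R3.SL
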