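import Mathlib
import Pool.Agent.H533R3.SL.Asm

set_option autoImplicit false

/-! # Uniformity in the field extension -/

namespace Pool.Agent.H533R3.SL

open Finset NumberField Pool.Agent.H458.Sp

theorem hs_map_le {k K : Type} [Field k] [NumberField k] [Field K] [NumberField K] [Algebra k K]
    (a : 𝓞 k) : hs (algebraMap (𝓞 k) (𝓞 K) a) ≤ hs a := by
  unfold hs
  have h1 : algebraMap (𝓞 K) K (algebraMap (𝓞 k) (𝓞 K) a) =
      algebraMap k K (algebraMap (𝓞 k) k a) := rfl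
  rw [h1]
  show ‖canonicalEmbedding K _‖ ≤ _
  refine (pi_norm_le_iff_of_nonneg (house_nonneg _)).2 fun σ => ?_
  exact norm_embedding_le_house (algebraMap (𝓞 k) k a) (σ.comp (algebraMap k K))

theorem nrm_map_le {k K : Type} [Field k] [NumberField k] [Field K] [NumberField K] [Algebra k K]
    {n : ℕ} (F : MvPolynomial (Fin n) (𝓞 k)) :
    nrm (MvPolynomial.map (algebraMap (𝓞 k) (𝓞 K)) F) ≤ nrm F := by
  classical
  rw [nrm_eq (MvPolynomial.map (algebraMap (𝓞 k) (𝓞 K)) F) F.support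
    (MvPolynomial.support_map_subset _ _)]
  unfold nrm
  refine Finset.sum_le_sum fun α _ => ?_
  rw [MvPolynomial.coeff_map]
  exact hs_map_le _

/-- the `K`-points of the projective variety given by the forms in `FF` that lie off the
hypersurface `G = 0` and have integral homogeneous coordinates which are `r`-sparse in some base
`b ≥ 2`, with digits of house at most `B` -/
def offPoints {k : Type} [Field k] [NumberField k] {n : ℕ}
    (FF : Finset (MvPolynomial (Fin (n + 1)) (𝓞 k))) (G : MvPolynomial (Fin (n + 1)) k) (r : ℕ)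
    (B : ℝ) (K : Type) [Field K] [NumberField K] [Algebra k K] :
    Set (Projectivization K (Fin (n + 1) → K)) :=
  {P | ∃ (x : Fin (n + 1) → 𝓞 K) (h : (fun i => algebraMap (𝓞 K) K (x i)) ≠ 0),
    P = Projectivization.mk K (fun i => algebraMap (𝓞 K) K (x i)) h ∧
    (∀ F ∈ FF, MvPolynomial.aeval x F = 0) ∧
    MvPolynomial.aeval (fun i => algebraMap (𝓞 K) K (x i)) G ≠ 0 ∧
    ∃ b : ℕ, 2 ≤ b ∧ SparseVec b r B x}

theorem strong_uniform (k : Type) [Field k] [NumberField k] (n : ℕ)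
    (FF : Finset (MvPolynomial (Fin (n + 1)) (𝓞 k))) (d : ℕ) (hd : 1 ≤ d) (A : ℝ) (hA : 1 ≤ A)
    (hFF : ∀ F ∈ FF, (∃ e, e ≤ d ∧ F.IsHomogeneous e) ∧ nrm F ≤ A)
    (hprime : (idealK FF).IsPrime) (hnu : ¬ Uniruled (idealK FF)) (r : ℕ) (hr : 1 ≤ r) :
    ∃ G : MvPolynomial (Fin (n + 1)) k, (∃ e, G.IsHomogeneous e) ∧ G ∉ idealK FF ∧
      ∀ B : ℝ, 1 ≤ B → ∀ (K : Type) [Field K] [NumberField K] [Algebra k K],
        offPoints FF G r B K ⊆ smallPoints K n
          (Real.exp ((8 * d * (6 + 8 * d + 4 * Real.log A)) ^ r *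
            (1 + Real.log B + Real.log (A * (r * B) ^ d)))) := by
  obtain ⟨G, h1, h2, h3⟩ := strong_small k n FF d hd (fun F hF => (hFF F hF).1) hprime hnu r hr
  refine ⟨G, h1, h2, ?_⟩
  rintro B hB K _ _ _ P ⟨x, hx, rfl, hzero, hGx, b, hb, m, v, hv, hxe⟩
  have hx0 : x ≠ 0 := (ne_zero_iff x).1 hx
  obtain ⟨y, hy0, hxy, hyB⟩ := h3 K A B hA hB (fun F hF => (nrm_map_le F).trans (hFF F hF).2) b hb
    m v hv x hx0 hxe hzero hGx
  exact ⟨y, (ne_zero_iff y).2 hy0, mk_eq x y _ _ hxy, hyB⟩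

end Pool.Agent.H533R3.SL
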