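import Mathlib
import Pool.Agent.H533R3.SL.Unif

set_option autoImplicit false

/-! # Sparse integral points of affine varieties without punctured lines -/

namespace Pool.Agent.H533R3.SL

open Finset NumberField Pool.Agent.H458.Sp

/-- The affine variety `x₀ ≠ 0` in the projective variety over `k` given by the forms in `FF`
contains no image of a nonconstant map from the punctured line `T ≠ 0`, over any finite extension
`K` of `k`: if `T ↦ (T ^ a : p₁ T : … : pₙ T)` maps to the variety then every `p i` is a constant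
multiple of `T ^ a`. -/
def NoGm {k : Type} [Field k] [NumberField k] {n : ℕ}
    (FF : Finset (MvPolynomial (Fin (n + 1)) (𝓞 k))) : Prop :=
  ∀ (K : Type) [Field K] [NumberField K] [Algebra k K] (a : ℕ) (p : Fin (n + 1) → Polynomial K),
    p 0 = Polynomial.X ^ a →
    (∀ F ∈ FF, MvPolynomial.aeval p (MvPolynomial.map (algebraMap (𝓞 k) k) F) = 0) →
    ∀ i, ∃ c : K, p i = Polynomial.C c * Polynomial.X ^ a

/-- The vector `x` is `r`-sparse in base `b`: it is a sum of `r` terms `b ^ (m j) • v j`, with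
exponents in `ℤ`, where the coordinates of the digit vectors `v j` are algebraic integers of house
at most `B`. -/
def SparseAff {K : Type} [Field K] [NumberField K] {n : ℕ} (b r : ℕ) (B : ℝ) (x : Fin n → K) :
    Prop :=
  ∃ (m : Fin r → ℤ) (v : Fin r → Fin n → 𝓞 K), (∀ j i, hs (v j i) ≤ B) ∧
    ∀ i, x i = ∑ j, (b : K) ^ (m j) * algebraMap (𝓞 K) K (v j i)

/-- the `K`-points of the affine variety which are `r`-sparse in some base -/
def affPoints {k : Type} [Field k] [NumberField k] {n : ℕ}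
    (FF : Finset (MvPolynomial (Fin (n + 1)) (𝓞 k))) (r : ℕ)
    (B : ℝ) (K : Type) [Field K] [NumberField K] [Algebra k K] : Set (Fin n → K) :=
  {x | (∀ F ∈ FF, MvPolynomial.aeval (Fin.cons 1 x : Fin (n + 1) → K)
      (MvPolynomial.map (algebraMap (𝓞 k) k) F) = 0) ∧ ∃ b : ℕ, 2 ≤ b ∧ SparseAff b r B x}

/-- the vectors over `K` with a common denominator `y₀` and numerators `y i` of house at most `H` -/
def smallAff (K : Type) [Field K] [NumberField K] (n : ℕ) (H : ℝ) : Set (Fin n → K) :=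
  {x | ∃ y₀ : 𝓞 K, y₀ ≠ 0 ∧ hs y₀ ≤ H ∧ ∃ y : Fin n → 𝓞 K, (∀ i, hs (y i) ≤ H) ∧
    ∀ i, x i = algebraMap (𝓞 K) K (y i) / algebraMap (𝓞 K) K y₀}

theorem smallAff_finite (K : Type) [Field K] [NumberField K] (n : ℕ) (H : ℝ) :
    (smallAff K n H).Finite := by
  classical
  have h1 : {a : K | IsIntegral ℤ a ∧ ∀ φ : K →+* ℂ, ‖φ a‖ ≤ H}.Finite :=
    Embeddings.finite_of_norm_le K ℂ H
  have h2 : {a : 𝓞 K | hs a ≤ H}.Finite := by
    refine Set.Finite.of_finite_image (f := algebraMap (𝓞 K) K) (h1.subset ?_)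
      ((FaithfulSMul.algebraMap_injective (𝓞 K) K).injOn)
    rintro _ ⟨a, ha, rfl⟩
    exact ⟨a.2, fun φ => (norm_embedding_le_house _ φ).trans ha⟩
  have h3 : {y : Fin n → 𝓞 K | ∀ i, hs (y i) ≤ H}.Finite := by
    have := Set.Finite.pi' (fun _ : Fin n => h2)
    simpa using this
  refine ((h2.prod h3).image (fun q : 𝓞 K × (Fin n → 𝓞 K) => fun i =>
    algebraMap (𝓞 K) K (q.2 i) / algebraMap (𝓞 K) K q.1)).subset ?_
  rintro x ⟨y₀, _, h4, y, h5, h6⟩
  exact ⟨(y₀, y), ⟨h4, h5⟩, (funext h6).symm⟩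

theorem gm_small (k : Type) [Field k] [NumberField k] (n : ℕ)
    (FF : Finset (MvPolynomial (Fin (n + 1)) (𝓞 k))) (d : ℕ) (hd : 1 ≤ d) (A : ℝ) (hA : 1 ≤ A)
    (hFF : ∀ F ∈ FF, (∃ e, e ≤ d ∧ F.IsHomogeneous e) ∧ nrm F ≤ A)
    (hyp : NoGm FF) (r : ℕ) (B : ℝ) (hB : 1 ≤ B) (K : Type) [Field K] [NumberField K]
    [Algebra k K] :
    affPoints FF r B K ⊆ smallAff K n
      (Real.exp ((8 * d * (6 + 8 * d + 4 * Real.log A)) ^ (r + 1) *
        (1 + Real.log B + Real.log (A * ((r + 1 : ℕ) * B) ^ d)))) := by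
  classical
  rintro x ⟨hx0, b, hb, m, v, hv, hx⟩
  have hbK : (b : K) ≠ 0 := by
    have : (b : ℕ) ≠ 0 := by omega
    exact_mod_cast this
  -- clear the denominators
  obtain ⟨a, ha⟩ : ∃ a : ℕ, ∀ j, 0 ≤ m j + a := by
    refine ⟨∑ j, (m j).natAbs, fun j => ?_⟩
    have h1 : (m j).natAbs ≤ ∑ j, (m j).natAbs :=
      Finset.single_le_sum (f := fun j => (m j).natAbs) (fun _ _ => Nat.zero_le _)
        (Finset.mem_univ j)
    omega
  let m' : Fin (r + 1) → ℕ := Fin.cons a (fun j => (m j + a).toNat)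
  let v' : Fin (r + 1) → Fin (n + 1) → 𝓞 K :=
    Fin.cons (Fin.cons 1 (fun _ => 0)) (fun j => Fin.cons 0 (v j))
  let z : Fin (n + 1) → 𝓞 K := fun i => ∑ j, (b : 𝓞 K) ^ (m' j) * v' j i
  have hz0 : z 0 = (b : 𝓞 K) ^ a := by
    simp [z, m', v', Fin.sum_univ_succ]
  have hzs : ∀ i : Fin n, algebraMap (𝓞 K) K (z i.succ) = (b : K) ^ a * x i := by
    intro i
    rw [hx i, Finset.mul_sum]
    simp only [z, m', v', Fin.sum_univ_succ, Fin.cons_zero, Fin.cons_succ, mul_zero, zero_add,
      map_sum, map_mul, map_pow, map_natCast]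
    refine Finset.sum_congr rfl fun j _ => ?_
    rw [← mul_assoc]
    congr 1
    rw [← zpow_natCast, ← zpow_natCast, ← zpow_add₀ hbK, Int.toNat_of_nonneg (ha j), add_comm]
  have hzK : (fun i => algebraMap (𝓞 K) K (z i)) =
      fun i => (b : K) ^ a * (Fin.cons 1 x : Fin (n + 1) → K) i := by
    funext i
    refine Fin.cases ?_ (fun i => ?_) i
    · rw [hz0]; simp
    · rw [hzs]; simp
  have hz : z ≠ 0 := by
    intro h
    have h1 := congrFun h 0
    rw [hz0] at h1
    have h2 : ((b : 𝓞 K)) ≠ 0 := by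
      have : (b : ℕ) ≠ 0 := by omega
      exact_mod_cast this
    exact pow_ne_zero a h2 h1
  have hinjK := FaithfulSMul.algebraMap_injective (𝓞 K) K
  have hzero : ∀ F' ∈ (MvPolynomial.map (algebraMap (𝓞 k) (𝓞 K))) ''
      (FF : Set (MvPolynomial (Fin (n + 1)) (𝓞 k))), MvPolynomial.aeval z F' = 0 := by
    rintro _ ⟨F, hF, rfl⟩
    obtain ⟨⟨e, he, hFe⟩, _⟩ := hFF F hF
    apply hinjK
    rw [map_zero, MvPolynomial.aeval_map_algebraMap]
    have h1 : algebraMap (𝓞 K) K (MvPolynomial.aeval z F) =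
        MvPolynomial.aeval (fun i => algebraMap (𝓞 K) K (z i))
          (MvPolynomial.map (algebraMap (𝓞 k) k) F) := by
      rw [MvPolynomial.aeval_def, MvPolynomial.hom_eval₂, MvPolynomial.aeval_def,
        MvPolynomial.eval₂_map]
      rfl
    rw [h1, hzK]
    have h2 : MvPolynomial.aeval (fun i => (b : K) ^ a * (Fin.cons 1 x : Fin (n + 1) → K) i)
        (MvPolynomial.map (algebraMap (𝓞 k) k) F) = ((b : K) ^ a) ^ e *
        MvPolynomial.aeval (Fin.cons 1 x : Fin (n + 1) → K)
          (MvPolynomial.map (algebraMap (𝓞 k) k) F) := by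
      have hFe' := hFe.map (algebraMap (𝓞 k) k)
      rw [MvPolynomial.aeval_def, MvPolynomial.aeval_def, MvPolynomial.eval₂_eq',
        MvPolynomial.eval₂_eq', Finset.mul_sum]
      refine Finset.sum_congr rfl fun α hα => ?_
      have h1 := hFe' (MvPolynomial.mem_support_iff.1 hα)
      rw [Finsupp.weight_apply, Finsupp.sum_fintype _ _ (by simp)] at h1
      have h2 : ∑ i, α i = e := by simpa using h1
      simp_rw [mul_pow]
      rw [Finset.prod_mul_distrib, Finset.prod_pow_eq_pow_sum, h2]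
      ring
    rw [h2, hx0 F hF, mul_zero]
  have hFK : ∀ F' ∈ (MvPolynomial.map (algebraMap (𝓞 k) (𝓞 K))) ''
      (FF : Set (MvPolynomial (Fin (n + 1)) (𝓞 k))),
      (∃ e, e ≤ d ∧ F'.IsHomogeneous e) ∧ nrm F' ≤ A := by
    rintro _ ⟨F, hF, rfl⟩
    obtain ⟨⟨e, he, hFe⟩, h1⟩ := hFF F hF
    exact ⟨⟨e, he, hFe.map _⟩, (nrm_map_le F).trans h1⟩
  have hv' : ∀ j i, hs (v' j i) ≤ B := by
    intro j i
    refine Fin.cases ?_ (fun j => ?_) j
    · refine Fin.cases ?_ (fun i => ?_) i
      · simp only [v', Fin.cons_zero]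
        rw [hs_one]
        exact hB
      · simp only [v', Fin.cons_zero, Fin.cons_succ]
        rw [hs_zero]
        linarith
    · refine Fin.cases ?_ (fun i => ?_) i
      · simp only [v', Fin.cons_zero, Fin.cons_succ]
        rw [hs_zero]
        linarith
      · simp only [v', Fin.cons_succ]
        exact hv j i
  rcases dichotomyL_all _ d hd A hA hFK b hb (r + 1) (by omega) B hB m' v' hv' z hz
    (fun i => rfl) hzero with ⟨lam, hcur, i, i', hc⟩ | ⟨y, hy0, hzy, hyB⟩
  · exfalso
    apply hc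
    let ψ : Polynomial (𝓞 K) →+* Polynomial K := Polynomial.mapRingHom (algebraMap (𝓞 K) K)
    have hψinj : Function.Injective ψ := Polynomial.map_injective _ hinjK
    have hba : ((b : K) ^ a) ≠ 0 := pow_ne_zero _ hbK
    let p : Fin (n + 1) → Polynomial K := fun i =>
      Polynomial.C (((b : K) ^ a)⁻¹) * ψ (curve b m' lam v' i)
    have hcv0 : ψ (curve b m' lam v' 0) = Polynomial.C ((b : K) ^ a) * Polynomial.X ^ (lam 0) := by
      unfold curve
      rw [Fin.sum_univ_succ]
      simp [ψ, m', v']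
    have hp0 : p 0 = Polynomial.X ^ (lam 0) := by
      simp only [p]
      rw [hcv0, ← mul_assoc, ← Polynomial.C_mul, inv_mul_cancel₀ hba, Polynomial.C_1, one_mul]
    have hpF : ∀ F ∈ FF, MvPolynomial.aeval p (MvPolynomial.map (algebraMap (𝓞 k) k) F) = 0 := by
      intro F hF
      obtain ⟨⟨e, he, hFe⟩, _⟩ := hFF F hF
      have h1 := congrArg ψ (hcur _ ⟨F, hF, rfl⟩)
      rw [map_zero, MvPolynomial.aeval_map_algebraMap, MvPolynomial.aeval_def,
        MvPolynomial.hom_eval₂] at h1
      have h3 : (algebraMap k (Polynomial K)).comp (algebraMap (𝓞 k) k) =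
          ψ.comp (algebraMap (𝓞 k) (Polynomial (𝓞 K))) := by
        refine RingHom.ext fun a => ?_
        show algebraMap k (Polynomial K) (algebraMap (𝓞 k) k a) =
          ψ (algebraMap (𝓞 k) (Polynomial (𝓞 K)) a)
        rw [Polynomial.algebraMap_apply, Polynomial.algebraMap_apply]
        have h5 : ψ (Polynomial.C (algebraMap (𝓞 k) (𝓞 K) a)) =
            Polynomial.C (algebraMap (𝓞 K) K (algebraMap (𝓞 k) (𝓞 K) a)) := by
          show Polynomial.map _ (Polynomial.C _) = _
          rw [Polynomial.map_C]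
        rw [h5]
        rfl
      have h4 : MvPolynomial.aeval (fun i => ψ (curve b m' lam v' i))
          (MvPolynomial.map (algebraMap (𝓞 k) k) F) = 0 := by
        rw [MvPolynomial.aeval_def, MvPolynomial.eval₂_map, h3, ← h1]
      have h6 : MvPolynomial.aeval p (MvPolynomial.map (algebraMap (𝓞 k) k) F) =
          (Polynomial.C (((b : K) ^ a)⁻¹)) ^ e * MvPolynomial.aeval
            (fun i => ψ (curve b m' lam v' i)) (MvPolynomial.map (algebraMap (𝓞 k) k) F) := by
        have hFe' := hFe.map (algebraMap (𝓞 k) k)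
        rw [MvPolynomial.aeval_def, MvPolynomial.aeval_def, MvPolynomial.eval₂_eq',
          MvPolynomial.eval₂_eq', Finset.mul_sum]
        refine Finset.sum_congr rfl fun α hα => ?_
        have h1 := hFe' (MvPolynomial.mem_support_iff.1 hα)
        rw [Finsupp.weight_apply, Finsupp.sum_fintype _ _ (by simp)] at h1
        have h2 : ∑ i, α i = e := by simpa using h1
        simp only [p, mul_pow]
        rw [Finset.prod_mul_distrib, Finset.prod_pow_eq_pow_sum, h2]
        ring
      rw [h6, h4, mul_zero]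
    have hcst := hyp K (lam 0) p hp0 hpF
    have hform : ∀ i, ψ (curve b m' lam v' i) =
        Polynomial.C (algebraMap (𝓞 K) K (z i)) * Polynomial.X ^ (lam 0) := by
      intro i
      obtain ⟨c, hc⟩ := hcst i
      have h1 : ψ (curve b m' lam v' i) =
          Polynomial.C ((b : K) ^ a * c) * Polynomial.X ^ (lam 0) := by
        rw [Polynomial.C_mul, mul_assoc, ← hc]
        simp only [p]
        rw [← mul_assoc, ← Polynomial.C_mul, mul_inv_cancel₀ hba, Polynomial.C_1, one_mul]
      have h2 : (ψ (curve b m' lam v' i)).eval 1 = algebraMap (𝓞 K) K (z i) := by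
        show (Polynomial.map _ _).eval 1 = _
        have h3 := curve_eval_one b m' lam v' i
        rw [Polynomial.eval_map, Polynomial.eval₂_at_one, h3]
      rw [h1] at h2 ⊢
      simp only [Polynomial.eval_mul, Polynomial.eval_C, Polynomial.eval_pow, Polynomial.eval_X,
        one_pow, mul_one] at h2
      rw [h2]
    apply hψinj
    rw [map_mul, map_mul, hform, hform]
    have h7 : ∀ w : 𝓞 K, ψ (Polynomial.C w) = Polynomial.C (algebraMap (𝓞 K) K w) := by
      intro w
      show Polynomial.map _ (Polynomial.C _) = _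
      rw [Polynomial.map_C]
    rw [h7, h7]
    ring
  · -- the small representative
    have hy00 : y 0 ≠ 0 := by
      intro h
      apply hy0
      funext i
      have h1 := hzy 0 i
      rw [h, mul_zero, hz0] at h1
      have h2 : ((b : 𝓞 K)) ≠ 0 := by
        have : (b : ℕ) ≠ 0 := by omega
        exact_mod_cast this
      rcases mul_eq_zero.1 h1 with h3 | h3
      · exact absurd h3 (pow_ne_zero a h2)
      · exact h3
    refine ⟨y 0, hy00, hyB 0, fun i => y i.succ, fun i => hyB _, fun i => ?_⟩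
    have hy00' : algebraMap (𝓞 K) K (y 0) ≠ 0 := by
      intro h
      exact hy00 (hinjK (by rw [h, map_zero]))
    rw [eq_div_iff hy00']
    have h1 := congrArg (algebraMap (𝓞 K) K) (hzy 0 i.succ)
    rw [map_mul, map_mul, hzs, hz0, map_pow, map_natCast] at h1
    have hba : ((b : K) ^ a) ≠ 0 := pow_ne_zero _ hbK
    apply mul_left_cancel₀ hba
    rw [h1]
    ring

end Pool.Agent.H533R3.SL
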