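import Mathlib
import Pool.Agent.H533R3.SL.Gm

set_option autoImplicit false

/-! # Sparse integral points of affine varieties not covered by punctured lines -/

namespace Pool.Agent.H533R3.SL

open Finset NumberField Pool.Agent.H458.Sp

variable {n r : ℕ}

/-- there is a generic nonconstant curve with exponents `l` whose coefficients with index in `Z`
vanish -/
def GenCur {k : Type} [Field k] (I : Ideal (MvPolynomial (Fin (n + 1)) k))
    (Z : Set (Fin r × Fin (n + 1))) (l : Fin r → ℕ) : Prop :=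
  ∃ (L : Type) (_ : Field L) (_ : Algebra k L) (c : Fin r → Fin (n + 1) → L),
    (∀ q ∈ Z, c q.1 q.2 = 0) ∧ (∀ F ∈ I, MvPolynomial.aeval (cur c l) F = 0) ∧
    (∀ G : MvPolynomial (Fin (n + 1)) k, (∃ e, G.IsHomogeneous e) → G ∉ I →
      MvPolynomial.aeval (fun i => ∑ j, c j i) G ≠ 0) ∧
    ∃ i j, cur c l i * Polynomial.C (∑ t, c t j) ≠ cur c l j * Polynomial.C (∑ t, c t i)

theorem exists_GZ {k : Type} [Field k] (FF : Set (MvPolynomial (Fin (n + 1)) k))
    (hprime : (Ideal.span FF).IsPrime) (Z : Set (Fin r × Fin (n + 1))) (l : Fin r → ℕ)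
    (hnu : ¬ GenCur (Ideal.span FF) Z l) (i i' : Fin (n + 1)) (w : ℕ) :
    ∃ G : MvPolynomial (Fin (n + 1)) k, (∃ e, G.IsHomogeneous e) ∧ G ∉ Ideal.span FF ∧
      ∀ (L : Type) [Field L] [Algebra k L] (c : Fin r → Fin (n + 1) → L),
        (∀ q ∈ Z, c q.1 q.2 = 0) → (∀ F ∈ FF, MvPolynomial.aeval (cur c l) F = 0) →
        (cur c l i * Polynomial.C (∑ j, c j i') - cur c l i' * Polynomial.C (∑ j, c j i)).coeff w
          ≠ 0 → MvPolynomial.aeval (fun i => ∑ j, c j i) G = 0 := by
  classical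
  by_contra hcon
  push Not at hcon
  let R : Type := MvPolynomial (Fin r × Fin (n + 1)) k
  let ct : Fin r → Fin (n + 1) → R := fun j i => MvPolynomial.X (j, i)
  let xt : Fin (n + 1) → R := fun i => ∑ j, ct j i
  let N : R := (cur ct l i * Polynomial.C (xt i') - cur ct l i' * Polynomial.C (xt i)).coeff w
  let J : Ideal R := Ideal.span ({a | ∃ F ∈ FF, ∃ t : ℕ,
    a = (MvPolynomial.aeval (cur ct l) F).coeff t} ∪ {a | ∃ q ∈ Z, a = MvPolynomial.X q})
  -- specialisation
  have hcur : ∀ (L : Type) [Field L] [Algebra k L] (s : R →ₐ[k] L) (i : Fin (n + 1)),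
      Polynomial.mapAlgHom s (cur ct l i) = cur (fun j i => s (ct j i)) l i := by
    intro L _ _ s i
    unfold cur
    rw [map_sum]
    refine Finset.sum_congr rfl fun j _ => ?_
    simp
  have hFs : ∀ (L : Type) [Field L] [Algebra k L] (s : R →ₐ[k] L)
      (F : MvPolynomial (Fin (n + 1)) k),
      Polynomial.mapAlgHom s (MvPolynomial.aeval (cur ct l) F) =
        MvPolynomial.aeval (cur (fun j i => s (ct j i)) l) F := by
    intro L _ _ s F
    have h1 := congrArg (fun f => f F) (MvPolynomial.comp_aeval (R := k) (cur ct l)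
      (Polynomial.mapAlgHom s))
    refine Eq.trans h1 ?_
    show MvPolynomial.aeval (fun i => Polynomial.mapAlgHom s (cur ct l i)) F = _
    congr 2
    funext i
    exact hcur L s i
  have hxs : ∀ (L : Type) [Field L] [Algebra k L] (s : R →ₐ[k] L)
      (G : MvPolynomial (Fin (n + 1)) k),
      s (MvPolynomial.aeval xt G) =
        MvPolynomial.aeval (fun i => ∑ j, (fun j i => s (ct j i)) j i) G := by
    intro L _ _ s G
    have h1 := congrArg (fun f => f G) (MvPolynomial.comp_aeval (R := k) xt s)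
    refine Eq.trans h1 ?_
    show MvPolynomial.aeval (fun i => s (xt i)) G = _
    congr 2
    funext i
    simp only [xt, map_sum]
  have hNs : ∀ (L : Type) [Field L] [Algebra k L] (s : R →ₐ[k] L),
      s N = (cur (fun j i => s (ct j i)) l i * Polynomial.C (∑ j, (fun j i => s (ct j i)) j i') -
        cur (fun j i => s (ct j i)) l i' * Polynomial.C (∑ j, (fun j i => s (ct j i)) j i)).coeff
          w := by
    intro L _ _ s
    have h1 : s N = (Polynomial.mapAlgHom s (cur ct l i * Polynomial.C (xt i') -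
        cur ct l i' * Polynomial.C (xt i))).coeff w := by
      rw [Polynomial.coe_mapAlgHom, Polynomial.coeff_map]
      rfl
    rw [h1, map_sub, map_mul, map_mul, hcur, hcur]
    congr 3
    · simp [xt, map_sum]
    · simp [xt, map_sum]
  have h1I : (1 : MvPolynomial (Fin (n + 1)) k) ∉ Ideal.span FF := by
    intro h
    exact hprime.ne_top ((Ideal.eq_top_iff_one _).2 h)
  let M : Submonoid R :=
    { carrier := {a | ∃ (G : MvPolynomial (Fin (n + 1)) k) (t : ℕ), (∃ e, G.IsHomogeneous e) ∧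
        G ∉ Ideal.span FF ∧ a = MvPolynomial.aeval xt G * N ^ t}
      one_mem' := ⟨1, 0, ⟨0, MvPolynomial.isHomogeneous_one _ _⟩, h1I, by simp⟩
      mul_mem' := by
        rintro a b ⟨G, t, ⟨e, he⟩, hG, rfl⟩ ⟨G', t', ⟨e', he'⟩, hG', rfl⟩
        refine ⟨G * G', t + t', ⟨e + e', he.mul he'⟩, ?_, ?_⟩
        · intro h
          rcases hprime.mem_or_mem h with h | h
          · exact hG h
          · exact hG' h
        · rw [map_mul, pow_add]
          ring }
  have hdisj : Disjoint (J : Set R) M := by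
    rw [Set.disjoint_left]
    rintro a haJ ⟨G, t, hGh, hGI, rfl⟩
    obtain ⟨L, iL, iA, c, hZ, hz, hN, hG⟩ := hcon G hGh hGI
    let s : R →ₐ[k] L := MvPolynomial.aeval (fun q : Fin r × Fin (n + 1) => c q.1 q.2)
    have hsc : (fun j i => s (ct j i)) = c := by
      funext j i
      exact MvPolynomial.aeval_X (fun q : Fin r × Fin (n + 1) => c q.1 q.2) (j, i)
    have hJ : J ≤ RingHom.ker s.toRingHom := by
      rw [Ideal.span_le]
      rintro _ (⟨F, hF, t, rfl⟩ | ⟨q, hq, rfl⟩)
      swap
      · show s (MvPolynomial.X q) = 0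
        have h2 : s (MvPolynomial.X q) = c q.1 q.2 :=
          MvPolynomial.aeval_X (fun q : Fin r × Fin (n + 1) => c q.1 q.2) q
        rw [h2]
        exact hZ q hq
      show s _ = 0
      have h1 := hFs L s F
      rw [hsc, hz F hF] at h1
      have h2 := congrArg (fun P => Polynomial.coeff P t) h1
      simp only [Polynomial.coe_mapAlgHom, Polynomial.coeff_map, Polynomial.coeff_zero] at h2
      exact h2
    have h2 : s (MvPolynomial.aeval xt G * N ^ t) = 0 := hJ haJ
    rw [map_mul, map_pow, hxs, hNs, hsc] at h2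
    exact mul_ne_zero hG (pow_ne_zero _ hN) h2
  obtain ⟨P, hP, hJP, hPM⟩ := Ideal.exists_le_prime_disjoint J M hdisj
  let L : Type := FractionRing (R ⧸ P)
  let s : R →ₐ[k] L := (IsScalarTower.toAlgHom k (R ⧸ P) (FractionRing (R ⧸ P))).comp
    (Ideal.Quotient.mkₐ k P)
  have hs0 : ∀ a : R, s a = 0 ↔ a ∈ P := by
    intro a
    show algebraMap (R ⧸ P) (FractionRing (R ⧸ P)) (Ideal.Quotient.mk P a) = 0 ↔ _
    rw [FaithfulSMul.algebraMap_eq_zero_iff, Ideal.Quotient.eq_zero_iff_mem]
  apply hnu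
  refine ⟨L, inferInstance, inferInstance, fun j i => s (ct j i), ?_, ?_, ?_, ?_⟩
  · intro q hq
    exact (hs0 _).2 (hJP (Ideal.subset_span (Or.inr ⟨q, hq, rfl⟩)))
  · have hI : Ideal.span FF ≤ RingHom.ker
        (MvPolynomial.aeval (R := k) (cur (fun j i => s (ct j i)) l)).toRingHom := by
      rw [Ideal.span_le]
      intro F hF
      show MvPolynomial.aeval (cur (fun j i => s (ct j i)) l) F = 0
      rw [← hFs L s F]
      ext t
      rw [Polynomial.coe_mapAlgHom, Polynomial.coeff_map, Polynomial.coeff_zero]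
      refine (hs0 _).2 (hJP (Ideal.subset_span (Or.inl ⟨F, hF, t, rfl⟩)))
    intro F hF
    exact hI hF
  · intro G hGh hGI h0
    rw [← hxs L s G, hs0] at h0
    exact Set.disjoint_left.1 hPM h0 ⟨G, 0, hGh, hGI, by simp⟩
  · refine ⟨i, i', fun h0 => ?_⟩
    have h1 := hNs L s
    rw [h0, sub_self, Polynomial.coeff_zero, hs0] at h1
    exact Set.disjoint_left.1 hPM h1 ⟨1, 1, ⟨0, MvPolynomial.isHomogeneous_one _ _⟩, h1I,
      by simp⟩

end Pool.Agent.H533R3.SL
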