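import Mathlib
import Pool.Agent.H533R3.SL.Gm

set_option autoImplicit false

/-! # Sparse integral points, hypothesis over the base field only; plane curves over `ℤ` -/

namespace Pool.Agent.H533R3.SL

open Finset NumberField Pool.Agent.H458.Sp

theorem gm_self (K : Type) [Field K] [NumberField K] (n : ℕ)
    (FF : Set (MvPolynomial (Fin (n + 1)) (𝓞 K))) (d : ℕ) (hd : 1 ≤ d) (A : ℝ) (hA : 1 ≤ A)
    (hFF : ∀ F ∈ FF, (∃ e, e ≤ d ∧ F.IsHomogeneous e) ∧ nrm F ≤ A)
    (hyp : ∀ (a : ℕ) (p : Fin (n + 1) → Polynomial K), p 0 = Polynomial.X ^ a →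
      (∀ F ∈ FF, MvPolynomial.aeval p F = 0) →
      ∀ i, ∃ c : K, p i = Polynomial.C c * Polynomial.X ^ a)
    (r : ℕ) (B : ℝ) (hB : 1 ≤ B) (b : ℕ) (hb : 2 ≤ b) (m : Fin r → ℤ)
    (v : Fin r → Fin n → 𝓞 K) (hv : ∀ j i, hs (v j i) ≤ B) (x : Fin n → K)
    (hx : ∀ i, x i = ∑ j, (b : K) ^ (m j) * algebraMap (𝓞 K) K (v j i))
    (hx0 : ∀ F ∈ FF, MvPolynomial.aeval (Fin.cons 1 x : Fin (n + 1) → K) F = 0) :
    x ∈ smallAff K n
      (Real.exp ((8 * d * (6 + 8 * d + 4 * Real.log A)) ^ (r + 1) *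
        (1 + Real.log B + Real.log (A * ((r + 1 : ℕ) * B) ^ d)))) := by
  classical
  have hbK : (b : K) ≠ 0 := by
    have : (b : ℕ) ≠ 0 := by omega
    exact_mod_cast this
  obtain ⟨a, ha⟩ : ∃ a : ℕ, ∀ j, 0 ≤ m j + a := by
    refine ⟨∑ j, (m j).natAbs, fun j => ?_⟩
    have h1 : (m j).natAbs ≤ ∑ j, (m j).natAbs :=
      Finset.single_le_sum (f := fun j => (m j).natAbs) (fun _ _ => Nat.zero_le _)
        (Finset.mem_univ j)
    omega
  let m' : Fin (r + 1) → ℕ := Fin.cons a (fun j => (m j + a).toNat)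
  let v' : Fin (r + 1) → Fin (n + 1) → 𝓞 K :=
    Fin.cons (Fin.cons 1 (fun _ => 0)) (fun j => Fin.cons 0 (v j))
  let z : Fin (n + 1) → 𝓞 K := fun i => ∑ j, (b : 𝓞 K) ^ (m' j) * v' j i
  have hz0 : z 0 = (b : 𝓞 K) ^ a := by
    simp [z, m', v', Fin.sum_univ_succ]
  have hzs : ∀ i : Fin n, algebraMap (𝓞 K) K (z i.succ) = (b : K) ^ a * x i := by
    intro i
    rw [hx i, Finset.mul_sum]
    simp only [z, m', v', Fin.sum_univ_succ, Fin.cons_zero, Fin.cons_succ, mul_zero, zero_add,
      map_sum, map_mul, map_pow, map_natCast]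
    refine Finset.sum_congr rfl fun j _ => ?_
    rw [← mul_assoc]
    congr 1
    rw [← zpow_natCast, ← zpow_natCast, ← zpow_add₀ hbK, Int.toNat_of_nonneg (ha j), add_comm]
  have hzK : (fun i => algebraMap (𝓞 K) K (z i)) =
      fun i => (b : K) ^ a * (Fin.cons 1 x : Fin (n + 1) → K) i := by
    funext i
    refine Fin.cases ?_ (fun i => ?_) i
    · rw [hz0]; simp
    · rw [hzs]; simp
  have hz : z ≠ 0 := by
    intro h
    have h1 := congrFun h 0
    rw [hz0] at h1
    have h2 : ((b : 𝓞 K)) ≠ 0 := by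
      have : (b : ℕ) ≠ 0 := by omega
      exact_mod_cast this
    exact pow_ne_zero a h2 h1
  have hinjK := FaithfulSMul.algebraMap_injective (𝓞 K) K
  have hzero : ∀ F ∈ FF, MvPolynomial.aeval z F = 0 := by
    intro F hF
    obtain ⟨⟨e, he, hFe⟩, _⟩ := hFF F hF
    apply hinjK
    rw [map_zero]
    have h1 : algebraMap (𝓞 K) K (MvPolynomial.aeval z F) =
        MvPolynomial.aeval (fun i => algebraMap (𝓞 K) K (z i)) F := by
      rw [MvPolynomial.aeval_def, MvPolynomial.hom_eval₂, MvPolynomial.aeval_def]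
      rfl
    rw [h1, hzK]
    have h2 : MvPolynomial.aeval (fun i => (b : K) ^ a * (Fin.cons 1 x : Fin (n + 1) → K) i) F =
        ((b : K) ^ a) ^ e * MvPolynomial.aeval (Fin.cons 1 x : Fin (n + 1) → K) F := by
      rw [MvPolynomial.aeval_def, MvPolynomial.aeval_def, MvPolynomial.eval₂_eq',
        MvPolynomial.eval₂_eq', Finset.mul_sum]
      refine Finset.sum_congr rfl fun α hα => ?_
      have h1 := hFe (MvPolynomial.mem_support_iff.1 hα)
      rw [Finsupp.weight_apply, Finsupp.sum_fintype _ _ (by simp)] at h1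
      have h2 : ∑ i, α i = e := by simpa using h1
      simp_rw [mul_pow]
      rw [Finset.prod_mul_distrib, Finset.prod_pow_eq_pow_sum, h2]
      ring
    rw [h2, hx0 F hF, mul_zero]
  have hv' : ∀ j i, hs (v' j i) ≤ B := by
    intro j i
    refine Fin.cases ?_ (fun j => ?_) j
    · refine Fin.cases ?_ (fun i => ?_) i
      · simp only [v', Fin.cons_zero]
        rw [hs_one]
        exact hB
      · simp only [v', Fin.cons_zero, Fin.cons_succ]
        rw [hs_zero]
        linarith
    · refine Fin.cases ?_ (fun i => ?_) i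
      · simp only [v', Fin.cons_zero, Fin.cons_succ]
        rw [hs_zero]
        linarith
      · simp only [v', Fin.cons_succ]
        exact hv j i
  rcases dichotomyL_all _ d hd A hA hFF b hb (r + 1) (by omega) B hB m' v' hv' z hz
    (fun i => rfl) hzero with ⟨lam, hcur, i, i', hc⟩ | ⟨y, hy0, hzy, hyB⟩
  · exfalso
    apply hc
    let ψ : Polynomial (𝓞 K) →+* Polynomial K := Polynomial.mapRingHom (algebraMap (𝓞 K) K)
    have hψinj : Function.Injective ψ := Polynomial.map_injective _ hinjK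
    have hba : ((b : K) ^ a) ≠ 0 := pow_ne_zero _ hbK
    let p : Fin (n + 1) → Polynomial K := fun i =>
      Polynomial.C (((b : K) ^ a)⁻¹) * ψ (curve b m' lam v' i)
    have hcv0 : ψ (curve b m' lam v' 0) = Polynomial.C ((b : K) ^ a) * Polynomial.X ^ (lam 0) := by
      unfold curve
      rw [Fin.sum_univ_succ]
      simp [ψ, m', v']
    have hp0 : p 0 = Polynomial.X ^ (lam 0) := by
      simp only [p]
      rw [hcv0, ← mul_assoc, ← Polynomial.C_mul, inv_mul_cancel₀ hba, Polynomial.C_1, one_mul]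
    have hpF : ∀ F ∈ FF, MvPolynomial.aeval p F = 0 := by
      intro F hF
      obtain ⟨⟨e, he, hFe⟩, _⟩ := hFF F hF
      have h1 := congrArg ψ (hcur F hF)
      rw [map_zero, MvPolynomial.aeval_def, MvPolynomial.hom_eval₂] at h1
      have h3 : (algebraMap (𝓞 K) (Polynomial K)) =
          ψ.comp (algebraMap (𝓞 K) (Polynomial (𝓞 K))) := by
        refine RingHom.ext fun a => ?_
        show algebraMap (𝓞 K) (Polynomial K) a = ψ (algebraMap (𝓞 K) (Polynomial (𝓞 K)) a)
        have h5 : ψ (Polynomial.C (algebraMap (𝓞 K) (𝓞 K) a)) =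
            Polynomial.C (algebraMap (𝓞 K) K (algebraMap (𝓞 K) (𝓞 K) a)) := by
          show Polynomial.map _ (Polynomial.C _) = _
          rw [Polynomial.map_C]
        exact h5.symm
      have h4 : MvPolynomial.aeval (fun i => ψ (curve b m' lam v' i)) F = 0 := by
        rw [MvPolynomial.aeval_def, h3, ← h1]
      have h6 : MvPolynomial.aeval p F =
          (Polynomial.C (((b : K) ^ a)⁻¹)) ^ e * MvPolynomial.aeval
            (fun i => ψ (curve b m' lam v' i)) F := by
        rw [MvPolynomial.aeval_def, MvPolynomial.aeval_def, MvPolynomial.eval₂_eq',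
          MvPolynomial.eval₂_eq', Finset.mul_sum]
        refine Finset.sum_congr rfl fun α hα => ?_
        have h1 := hFe (MvPolynomial.mem_support_iff.1 hα)
        rw [Finsupp.weight_apply, Finsupp.sum_fintype _ _ (by simp)] at h1
        have h2 : ∑ i, α i = e := by simpa using h1
        simp only [p, mul_pow]
        rw [Finset.prod_mul_distrib, Finset.prod_pow_eq_pow_sum, h2]
        ring
      rw [h6, h4, mul_zero]
    have hcst := hyp (lam 0) p hp0 hpF
    have hform : ∀ i, ψ (curve b m' lam v' i) =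
        Polynomial.C (algebraMap (𝓞 K) K (z i)) * Polynomial.X ^ (lam 0) := by
      intro i
      obtain ⟨c, hc⟩ := hcst i
      have h1 : ψ (curve b m' lam v' i) =
          Polynomial.C ((b : K) ^ a * c) * Polynomial.X ^ (lam 0) := by
        rw [Polynomial.C_mul, mul_assoc, ← hc]
        simp only [p]
        rw [← mul_assoc, ← Polynomial.C_mul, mul_inv_cancel₀ hba, Polynomial.C_1, one_mul]
      have h2 : (ψ (curve b m' lam v' i)).eval 1 = algebraMap (𝓞 K) K (z i) := by
        show (Polynomial.map _ _).eval 1 = _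
        have h3 := curve_eval_one b m' lam v' i
        rw [Polynomial.eval_map, Polynomial.eval₂_at_one, h3]
      rw [h1] at h2 ⊢
      simp only [Polynomial.eval_mul, Polynomial.eval_C, Polynomial.eval_pow, Polynomial.eval_X,
        one_pow, mul_one] at h2
      rw [h2]
    apply hψinj
    rw [map_mul, map_mul, hform, hform]
    have h7 : ∀ w : 𝓞 K, ψ (Polynomial.C w) = Polynomial.C (algebraMap (𝓞 K) K w) := by
      intro w
      show Polynomial.map _ (Polynomial.C _) = _
      rw [Polynomial.map_C]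
    rw [h7, h7]
    ring
  · have hy00 : y 0 ≠ 0 := by
      intro h
      apply hy0
      funext i
      have h1 := hzy 0 i
      rw [h, mul_zero, hz0] at h1
      have h2 : ((b : 𝓞 K)) ≠ 0 := by
        have : (b : ℕ) ≠ 0 := by omega
        exact_mod_cast this
      rcases mul_eq_zero.1 h1 with h3 | h3
      · exact absurd h3 (pow_ne_zero a h2)
      · exact h3
    refine ⟨y 0, hy00, hyB 0, fun i => y i.succ, fun i => hyB _, fun i => ?_⟩
    have hy00' : algebraMap (𝓞 K) K (y 0) ≠ 0 := by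
      intro h
      exact hy00 (hinjK (by rw [h, map_zero]))
    rw [eq_div_iff hy00']
    have h1 := congrArg (algebraMap (𝓞 K) K) (hzy 0 i.succ)
    rw [map_mul, map_mul, hzs, hz0, map_pow, map_natCast] at h1
    have hba : ((b : K) ^ a) ≠ 0 := pow_ne_zero _ hbK
    apply mul_left_cancel₀ hba
    rw [h1]
    ring

/-- homogenisation of an integer polynomial -/
noncomputable def homZ {n : ℕ} (d : ℕ) (F : MvPolynomial (Fin n) ℤ) :
    MvPolynomial (Fin (n + 1)) (𝓞 ℚ) :=
  ∑ α ∈ F.support, MvPolynomial.monomial (Finsupp.cons (d - α.degree) α)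
    ((MvPolynomial.coeff α F : ℤ) : 𝓞 ℚ)

theorem hs_int (z : ℤ) : hs ((z : 𝓞 ℚ)) = |(z : ℝ)| := by
  unfold hs
  have h := house_intCast (K := ℚ) z
  rw [map_intCast, h]
  push_cast
  rfl

theorem homZ_homog {n : ℕ} (d : ℕ) (F : MvPolynomial (Fin n) ℤ) (hF : F.totalDegree ≤ d) :
    (homZ d F).IsHomogeneous d := by
  unfold homZ
  refine MvPolynomial.IsHomogeneous.sum _ _ _ fun α hα => ?_
  refine MvPolynomial.isHomogeneous_monomial _ ?_
  have h1 : α.degree ≤ d := by
    have := MvPolynomial.le_totalDegree hα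
    have h2 : α.degree = α.sum fun _ e => e := by
      rw [Finsupp.degree_apply, Finsupp.sum]
    omega
  rw [Finsupp.degree_eq_sum, Fin.sum_univ_succ]
  simp only [Finsupp.cons_zero, Finsupp.cons_succ]
  rw [← Finsupp.degree_eq_sum]
  omega

theorem homZ_nrm {n : ℕ} (d : ℕ) (F : MvPolynomial (Fin n) ℤ) :
    nrm (homZ d F) ≤ ∑ α ∈ F.support, |((MvPolynomial.coeff α F : ℤ) : ℝ)| := by
  unfold homZ
  refine (nrm_sum _ _).trans (Finset.sum_le_sum fun α _ => ?_)
  exact (nrm_monomial _ _).trans (hs_int _).le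

theorem homZ_aeval {n : ℕ} (d : ℕ) (F : MvPolynomial (Fin n) ℤ) {R : Type} [CommRing R]
    [Algebra (𝓞 ℚ) R] (p : Fin (n + 1) → R) :
    MvPolynomial.aeval p (homZ d F) = ∑ α ∈ F.support, ((MvPolynomial.coeff α F : ℤ) : R) *
      (p 0 ^ (d - α.degree) * ∏ i : Fin n, p i.succ ^ α i) := by
  unfold homZ
  rw [map_sum]
  refine Finset.sum_congr rfl fun α _ => ?_
  rw [MvPolynomial.aeval_monomial, map_intCast, Finsupp.prod_fintype _ _ (by simp),
    Fin.prod_univ_succ]
  simp only [Finsupp.cons_zero, Finsupp.cons_succ]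

/-- the plane curve (or affine variety) has no nonconstant Laurent polynomial parametrisation
over `ℚ` -/
def NoLaurent {n : ℕ} (F : MvPolynomial (Fin n) ℤ) : Prop :=
  ∀ q : Fin n → LaurentPolynomial ℚ, MvPolynomial.aeval q F = 0 →
    ∀ i, ∃ c : ℚ, q i = LaurentPolynomial.C c

theorem noGm_of_noLaurent {n : ℕ} (d : ℕ) (F : MvPolynomial (Fin n) ℤ) (hF : F.totalDegree ≤ d)
    (hyp : NoLaurent F) (a : ℕ) (p : Fin (n + 1) → Polynomial ℚ) (hp0 : p 0 = Polynomial.X ^ a)
    (hp : MvPolynomial.aeval p (homZ d F) = 0) (i : Fin (n + 1)) :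
    ∃ c : ℚ, p i = Polynomial.C c * Polynomial.X ^ a := by
  refine Fin.cases ?_ (fun i => ?_) i
  · exact ⟨1, by rw [hp0, Polynomial.C_1, one_mul]⟩
  let q : Fin n → LaurentPolynomial ℚ := fun i =>
    Polynomial.toLaurent (p i.succ) * LaurentPolynomial.T (-(a : ℤ))
  have h1 : MvPolynomial.aeval q F = 0 := by
    have h2 : LaurentPolynomial.T ((a : ℤ) * d) * MvPolynomial.aeval q F =
        Polynomial.toLaurent (MvPolynomial.aeval p (homZ d F)) := by
      rw [homZ_aeval, map_sum, MvPolynomial.aeval_def, MvPolynomial.eval₂_eq', Finset.mul_sum]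
      refine Finset.sum_congr rfl fun α hα => ?_
      have h3 : α.degree ≤ d := by
        have := MvPolynomial.le_totalDegree hα
        have h2 : α.degree = α.sum fun _ e => e := by
          rw [Finsupp.degree_apply, Finsupp.sum]
        omega
      have h4 : ∏ i, q i ^ α i = LaurentPolynomial.T (-((a : ℤ) * α.degree)) *
          ∏ i : Fin n, Polynomial.toLaurent (p i.succ) ^ α i := by
        simp only [q, mul_pow]
        rw [Finset.prod_mul_distrib, Finset.prod_pow_eq_pow_sum, ← Finsupp.degree_eq_sum,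
          LaurentPolynomial.T_pow, mul_comm]
        congr 2
        ring
      rw [h4, hp0]
      simp only [map_mul, map_pow, map_prod, map_intCast, Polynomial.toLaurent_X,
        LaurentPolynomial.T_pow, eq_intCast]
      have h5 : LaurentPolynomial.T ((a : ℤ) * d) * LaurentPolynomial.T (-((a : ℤ) * α.degree)) =
          (LaurentPolynomial.T (((d - α.degree : ℕ) : ℤ) * ((a : ℤ) * 1)) :
            LaurentPolynomial ℚ) := by
        rw [← LaurentPolynomial.T_add]
        congr 1
        rw [Nat.cast_sub h3]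
        ring
      rw [← h5]
      ring
    rw [hp, map_zero] at h2
    have h6 : IsUnit (LaurentPolynomial.T ((a : ℤ) * d) : LaurentPolynomial ℚ) :=
      LaurentPolynomial.isUnit_T _
    exact (h6.mul_right_eq_zero).1 h2
  obtain ⟨c, hc⟩ := hyp q h1 i
  refine ⟨c, ?_⟩
  apply Polynomial.toLaurent_injective
  have h7 : Polynomial.toLaurent (p i.succ) = q i * LaurentPolynomial.T (a : ℤ) := by
    simp only [q]
    rw [mul_assoc, ← LaurentPolynomial.T_add, neg_add_cancel, LaurentPolynomial.T_zero, mul_one]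
  rw [h7, hc]
  simp [LaurentPolynomial.T_pow]

end Pool.Agent.H533R3.SL
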