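import Mathlib
import Pool.Agent.H533R3.SL.CurZ

set_option autoImplicit false

/-! # Sparse integral points of affine varieties not covered by punctured lines: assembly -/

namespace Pool.Agent.H533R3.SL

open Finset NumberField Pool.Agent.H458.Sp

variable {n r : ℕ}

/-- all the nonconstant curves with `r` terms and vanishing coefficients in `Z` lie in one
hypersurface -/
theorem exists_hyperZ {k : Type} [Field k] (FF : Set (MvPolynomial (Fin (n + 1)) k))
    (hprime : (Ideal.span FF).IsPrime) (r : ℕ) (Z : Set (Fin r × Fin (n + 1)))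
    (hnu : ∀ l : Fin r → ℕ, ¬ GenCur (Ideal.span FF) Z l) (d : ℕ) (hd : 1 ≤ d)
    (hFF : ∀ F ∈ FF, ∃ e, e ≤ d ∧ F.IsHomogeneous e) :
    ∃ G : MvPolynomial (Fin (n + 1)) k, (∃ e, G.IsHomogeneous e) ∧ G ∉ Ideal.span FF ∧
      ∀ (L : Type) [Field L] [Algebra k L] (c : Fin r → Fin (n + 1) → L) (l : Fin r → ℕ),
        (∀ q ∈ Z, c q.1 q.2 = 0) → (∀ F ∈ FF, MvPolynomial.aeval (cur c l) F = 0) →
        (∃ i i', cur c l i * Polynomial.C (∑ j, c j i') ≠
          cur c l i' * Polynomial.C (∑ j, c j i)) →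
        MvPolynomial.aeval (fun i => ∑ j, c j i) G = 0 := by
  classical
  choose H hH1 hH2 hH3 using fun (q : Set ((Fin r → Fin (d + 1)) × (Fin r → Fin (d + 1))) ×
    Fin (n + 1) × Fin (n + 1) × Fin r) =>
    exists_GZ FF hprime Z (rep d q.1) (hnu _) q.2.1 q.2.2.1 (rep d q.1 q.2.2.2)
  choose E hE using hH1
  refine ⟨∏ q, H q, ⟨∑ q, E q, MvPolynomial.IsHomogeneous.prod _ _ _ fun q _ => hE q⟩, ?_, ?_⟩
  · rw [hprime.prod_mem_iff]
    push Not
    intro q _
    exact hH2 q
  · intro L _ _ c l hZ hz ⟨i, i', hc⟩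
    have hp := pat_rep d l
    have hz' : ∀ F ∈ FF, MvPolynomial.aeval (cur c (rep d (pat d l))) F = 0 := by
      intro F hF
      obtain ⟨e, he, hFe⟩ := hFF F hF
      exact cur_zero_transfer d l _ hp.symm c F e he hFe (hz F hF)
    have hc' : cur c (rep d (pat d l)) i * Polynomial.C (∑ j, c j i') ≠
        cur c (rep d (pat d l)) i' * Polynomial.C (∑ j, c j i) := by
      intro h
      exact hc (cur_const_transfer d hd _ l hp c i i' _ _ h)
    obtain ⟨j, hj⟩ := exists_exponent c _ i i' _ _ hc'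
    have h1 := hH3 (pat d l, i, i', j) L c hZ hz' hj
    rw [map_prod]
    exact Finset.prod_eq_zero (Finset.mem_univ (pat d l, i, i', j)) h1

/-- The affine part `x₀ ≠ 0` of the projective variety over `k` with (prime, homogeneous)
ideal `I` is covered by punctured lines: over some extension field `L` of `k` there is a nonconstant
map `T ↦ (u T ^ a : p₁ T : … : pₙ T)` to the variety, given by polynomials, whose value at `T = 1`
is a generic point of the variety over `k`. -/
def GmUniruled {k : Type} [Field k] {n : ℕ} (I : Ideal (MvPolynomial (Fin (n + 1)) k)) : Prop :=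
  ∃ (L : Type) (_ : Field L) (_ : Algebra k L) (p : Fin (n + 1) → Polynomial L) (a : ℕ) (u : L),
    p 0 = Polynomial.C u * Polynomial.X ^ a ∧
    (∀ F ∈ I, MvPolynomial.aeval p F = 0) ∧
    (∀ G : MvPolynomial (Fin (n + 1)) k, (∃ e, G.IsHomogeneous e) → G ∉ I →
      MvPolynomial.aeval (fun i => (p i).eval 1) G ≠ 0) ∧
    ∃ i j, p i * Polynomial.C ((p j).eval 1) ≠ p j * Polynomial.C ((p i).eval 1)

/-- the indices of the coefficients which vanish: only the first term has a coordinate `x₀`, and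
it has no other coordinates -/
def ZZ (r n : ℕ) : Set (Fin (r + 1) × Fin (n + 1)) :=
  {q | (q.1 = 0 ∧ q.2 ≠ 0) ∨ (q.1 ≠ 0 ∧ q.2 = 0)}

theorem not_genCur {k : Type} [Field k] (I : Ideal (MvPolynomial (Fin (n + 1)) k))
    (h : ¬ GmUniruled I) (l : Fin (r + 1) → ℕ) : ¬ GenCur I (ZZ r n) l := by
  rintro ⟨L, iL, iA, c, hZ, h1, h2, i, j, h3⟩
  apply h
  refine ⟨L, iL, iA, cur c l, l 0, c 0 0, ?_, h1, ?_, i, j, ?_⟩
  · unfold cur
    rw [Fin.sum_univ_succ]
    have h4 : ∑ j : Fin r, Polynomial.C (c j.succ 0) * Polynomial.X ^ l j.succ = 0 := by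
      refine Finset.sum_eq_zero fun j _ => ?_
      have h5 : c j.succ 0 = 0 := hZ (j.succ, 0) (Or.inr ⟨Fin.succ_ne_zero j, rfl⟩)
      rw [h5, Polynomial.C_0, zero_mul]
    rw [h4, add_zero]
  · intro G hG hGI
    have h5 := h2 G hG hGI
    have h6 : (fun i => (cur c l i).eval 1) = fun i => ∑ j, c j i := by
      funext i
      exact cur_eval_one _ _ _
    rw [h6]
    exact h5
  · rw [cur_eval_one, cur_eval_one]
    exact h3

/-- **Sparse integral points off a hypersurface are small**, over all finite extensions. -/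
theorem gm_strong (k : Type) [Field k] [NumberField k] (n : ℕ)
    (FF : Finset (MvPolynomial (Fin (n + 1)) (𝓞 k))) (d : ℕ) (hd : 1 ≤ d) (A : ℝ) (hA : 1 ≤ A)
    (hFF : ∀ F ∈ FF, (∃ e, e ≤ d ∧ F.IsHomogeneous e) ∧ nrm F ≤ A)
    (hprime : (idealK FF).IsPrime) (hnu : ¬ GmUniruled (idealK FF)) (r : ℕ) :
    ∃ G : MvPolynomial (Fin (n + 1)) k, (∃ e, G.IsHomogeneous e) ∧ G ∉ idealK FF ∧
      ∀ B : ℝ, 1 ≤ B → ∀ (K : Type) [Field K] [NumberField K] [Algebra k K],
        {x ∈ affPoints FF r B K | MvPolynomial.aeval (Fin.cons 1 x : Fin (n + 1) → K) G ≠ 0} ⊆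
          smallAff K n (Real.exp ((8 * d * (6 + 8 * d + 4 * Real.log A)) ^ (r + 1) *
            (1 + Real.log B + Real.log (A * ((r + 1 : ℕ) * B) ^ d)))) := by
  classical
  obtain ⟨G, ⟨eG, hG1⟩, hG2, hG3⟩ := exists_hyperZ
    ((MvPolynomial.map (algebraMap (𝓞 k) k)) ''
      (FF : Set (MvPolynomial (Fin (n + 1)) (𝓞 k)))) hprime (r + 1) (ZZ r n)
      (not_genCur _ hnu) d hd (by
      rintro _ ⟨F, hF, rfl⟩
      obtain ⟨⟨e, he, hFe⟩, _⟩ := hFF F hF
      exact ⟨e, he, hFe.map _⟩)
  refine ⟨G, ⟨eG, hG1⟩, hG2, ?_⟩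
  rintro B hB K _ _ _ x ⟨⟨hx0, b, hb, m, v, hv, hx⟩, hGx⟩
  have hbK : (b : K) ≠ 0 := by
    have : (b : ℕ) ≠ 0 := by omega
    exact_mod_cast this
  obtain ⟨a, ha⟩ : ∃ a : ℕ, ∀ j, 0 ≤ m j + a := by
    refine ⟨∑ j, (m j).natAbs, fun j => ?_⟩
    have h1 : (m j).natAbs ≤ ∑ j, (m j).natAbs :=
      Finset.single_le_sum (f := fun j => (m j).natAbs) (fun _ _ => Nat.zero_le _)
        (Finset.mem_univ j)
    omega
  let m' : Fin (r + 1) → ℕ := Fin.cons a (fun j => (m j + a).toNat)
  let v' : Fin (r + 1) → Fin (n + 1) → 𝓞 K :=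
    Fin.cons (Fin.cons 1 (fun _ => 0)) (fun j => Fin.cons 0 (v j))
  let z : Fin (n + 1) → 𝓞 K := fun i => ∑ j, (b : 𝓞 K) ^ (m' j) * v' j i
  have hz0 : z 0 = (b : 𝓞 K) ^ a := by
    simp [z, m', v', Fin.sum_univ_succ]
  have hzs : ∀ i : Fin n, algebraMap (𝓞 K) K (z i.succ) = (b : K) ^ a * x i := by
    intro i
    rw [hx i, Finset.mul_sum]
    simp only [z, m', v', Fin.sum_univ_succ, Fin.cons_zero, Fin.cons_succ, mul_zero, zero_add,
      map_sum, map_mul, map_pow, map_natCast]
    refine Finset.sum_congr rfl fun j _ => ?_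
    rw [← mul_assoc]
    congr 1
    rw [← zpow_natCast, ← zpow_natCast, ← zpow_add₀ hbK, Int.toNat_of_nonneg (ha j), add_comm]
  have hzK : (fun i => algebraMap (𝓞 K) K (z i)) =
      fun i => (b : K) ^ a * (Fin.cons 1 x : Fin (n + 1) → K) i := by
    funext i
    refine Fin.cases ?_ (fun i => ?_) i
    · rw [hz0]; simp
    · rw [hzs]; simp
  have hscale : ∀ (F : MvPolynomial (Fin (n + 1)) k) (e : ℕ), F.IsHomogeneous e →
      MvPolynomial.aeval (fun i => algebraMap (𝓞 K) K (z i)) F = ((b : K) ^ a) ^ e *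
        MvPolynomial.aeval (Fin.cons 1 x : Fin (n + 1) → K) F := by
    intro F e hFe
    rw [hzK, MvPolynomial.aeval_def, MvPolynomial.aeval_def, MvPolynomial.eval₂_eq',
      MvPolynomial.eval₂_eq', Finset.mul_sum]
    refine Finset.sum_congr rfl fun α hα => ?_
    have h1 := hFe (MvPolynomial.mem_support_iff.1 hα)
    rw [Finsupp.weight_apply, Finsupp.sum_fintype _ _ (by simp)] at h1
    have h2 : ∑ i, α i = e := by simpa using h1
    simp_rw [mul_pow]
    rw [Finset.prod_mul_distrib, Finset.prod_pow_eq_pow_sum, h2]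
    ring
  have hz : z ≠ 0 := by
    intro h
    have h1 := congrFun h 0
    rw [hz0] at h1
    have h2 : ((b : 𝓞 K)) ≠ 0 := by
      have : (b : ℕ) ≠ 0 := by omega
      exact_mod_cast this
    exact pow_ne_zero a h2 h1
  have hinjK := FaithfulSMul.algebraMap_injective (𝓞 K) K
  have hzero : ∀ F' ∈ (MvPolynomial.map (algebraMap (𝓞 k) (𝓞 K))) ''
      (FF : Set (MvPolynomial (Fin (n + 1)) (𝓞 k))), MvPolynomial.aeval z F' = 0 := by
    rintro _ ⟨F, hF, rfl⟩
    obtain ⟨⟨e, he, hFe⟩, _⟩ := hFF F hF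
    apply hinjK
    rw [map_zero, MvPolynomial.aeval_map_algebraMap]
    have h1 : algebraMap (𝓞 K) K (MvPolynomial.aeval z F) =
        MvPolynomial.aeval (fun i => algebraMap (𝓞 K) K (z i))
          (MvPolynomial.map (algebraMap (𝓞 k) k) F) := by
      rw [MvPolynomial.aeval_def, MvPolynomial.hom_eval₂, MvPolynomial.aeval_def,
        MvPolynomial.eval₂_map]
      rfl
    rw [h1, hscale _ e (hFe.map _), hx0 F hF, mul_zero]
  have hFK : ∀ F' ∈ (MvPolynomial.map (algebraMap (𝓞 k) (𝓞 K))) ''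
      (FF : Set (MvPolynomial (Fin (n + 1)) (𝓞 k))),
      (∃ e, e ≤ d ∧ F'.IsHomogeneous e) ∧ nrm F' ≤ A := by
    rintro _ ⟨F, hF, rfl⟩
    obtain ⟨⟨e, he, hFe⟩, h1⟩ := hFF F hF
    exact ⟨⟨e, he, hFe.map _⟩, (nrm_map_le F).trans h1⟩
  have hv' : ∀ j i, hs (v' j i) ≤ B := by
    intro j i
    refine Fin.cases ?_ (fun j => ?_) j
    · refine Fin.cases ?_ (fun i => ?_) i
      · simp only [v', Fin.cons_zero]
        rw [hs_one]
        exact hB
      · simp only [v', Fin.cons_zero, Fin.cons_succ]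
        rw [hs_zero]
        linarith
    · refine Fin.cases ?_ (fun i => ?_) i
      · simp only [v', Fin.cons_zero, Fin.cons_succ]
        rw [hs_zero]
        linarith
      · simp only [v', Fin.cons_succ]
        exact hv j i
  rcases dichotomyL_all _ d hd A hA hFK b hb (r + 1) (by omega) B hB m' v' hv' z hz
    (fun i => rfl) hzero with ⟨lam, hcur, i, i', hc⟩ | ⟨y, hy0, hzy, hyB⟩
  · exfalso
    apply hGx
    let c : Fin (r + 1) → Fin (n + 1) → K :=
      fun j i => algebraMap (𝓞 K) K ((b : 𝓞 K) ^ (m' j) * v' j i)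
    let ψ : Polynomial (𝓞 K) →+* Polynomial K := Polynomial.mapRingHom (algebraMap (𝓞 K) K)
    have hψ : ∀ i, ψ (curve b m' lam v' i) = cur c lam i := by
      intro i
      unfold curve cur
      rw [map_sum]
      refine Finset.sum_congr rfl fun j _ => ?_
      simp [ψ, c]
    have hxc : (fun i => algebraMap (𝓞 K) K (z i)) = fun i => ∑ j, c j i := by
      funext i
      simp only [z, map_sum, c]
    have hcZ : ∀ q ∈ ZZ r n, c q.1 q.2 = 0 := by
      rintro ⟨j, i⟩ (⟨h1, h2⟩ | ⟨h1, h2⟩)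
      · simp only at h1 h2
        subst h1
        obtain ⟨i, rfl⟩ := Fin.exists_succ_eq.2 h2
        simp [c, v']
      · simp only at h1 h2
        subst h2
        obtain ⟨j, rfl⟩ := Fin.exists_succ_eq.2 h1
        simp [c, v']
    have h0 : MvPolynomial.aeval (fun i => ∑ j, c j i) G = 0 := by
      refine hG3 K c lam hcZ ?_ ⟨i, i', ?_⟩
      · rintro _ ⟨F, hF, rfl⟩
        have h1 := congrArg ψ (hcur _ ⟨F, hF, rfl⟩)
        rw [map_zero, MvPolynomial.aeval_map_algebraMap, MvPolynomial.aeval_def,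
          MvPolynomial.hom_eval₂] at h1
        rw [MvPolynomial.aeval_def, MvPolynomial.eval₂_map, ← h1]
        have h2 : ψ ∘ curve b m' lam v' = cur c lam := funext hψ
        have h3 : (algebraMap k (Polynomial K)).comp (algebraMap (𝓞 k) k) =
            ψ.comp (algebraMap (𝓞 k) (Polynomial (𝓞 K))) := by
          refine RingHom.ext fun a => ?_
          show algebraMap k (Polynomial K) (algebraMap (𝓞 k) k a) =
            ψ (algebraMap (𝓞 k) (Polynomial (𝓞 K)) a)
          rw [Polynomial.algebraMap_apply, Polynomial.algebraMap_apply]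
          have h5 : ψ (Polynomial.C (algebraMap (𝓞 k) (𝓞 K) a)) =
              Polynomial.C (algebraMap (𝓞 K) K (algebraMap (𝓞 k) (𝓞 K) a)) := by
            show Polynomial.map _ (Polynomial.C _) = _
            rw [Polynomial.map_C]
          rw [h5]
          rfl
        rw [h3]
        congr 1
        exact h2.symm
      · intro h
        apply hc
        have hinj : Function.Injective ψ := Polynomial.map_injective _ hinjK
        apply hinj
        rw [map_mul, map_mul, hψ, hψ]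
        have h4 : ∀ i, ψ (Polynomial.C (z i)) = Polynomial.C (∑ j, c j i) := by
          intro i
          have h6 : algebraMap (𝓞 K) K (z i) = ∑ j, c j i := congrFun hxc i
          rw [← h6]
          simp [ψ]
        rw [h4, h4]
        exact h
    rw [← hxc, hscale G eG hG1] at h0
    rcases mul_eq_zero.1 h0 with h1 | h1
    · exact absurd h1 (pow_ne_zero _ (pow_ne_zero _ hbK))
    · exact h1
  · have hy00 : y 0 ≠ 0 := by
      intro h
      apply hy0
      funext i
      have h1 := hzy 0 i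
      rw [h, mul_zero, hz0] at h1
      have h2 : ((b : 𝓞 K)) ≠ 0 := by
        have : (b : ℕ) ≠ 0 := by omega
        exact_mod_cast this
      rcases mul_eq_zero.1 h1 with h3 | h3
      · exact absurd h3 (pow_ne_zero a h2)
      · exact h3
    refine ⟨y 0, hy00, hyB 0, fun i => y i.succ, fun i => hyB _, fun i => ?_⟩
    have hy00' : algebraMap (𝓞 K) K (y 0) ≠ 0 := by
      intro h
      exact hy00 (hinjK (by rw [h, map_zero]))
    rw [eq_div_iff hy00']
    have h1 := congrArg (algebraMap (𝓞 K) K) (hzy 0 i.succ)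
    rw [map_mul, map_mul, hzs, hz0, map_pow, map_natCast] at h1
    have hba : ((b : K) ^ a) ≠ 0 := pow_ne_zero _ hbK
    apply mul_left_cancel₀ hba
    rw [h1]
    ring

end Pool.Agent.H533R3.SL
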