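import Mathlib
import Pool.Agent.H533R3.SL.Unif

set_option autoImplicit false

/-! # Sparse algebraic points of bounded degree -/

namespace Pool.Agent.H533R3.SL

open Finset NumberField Pool.Agent.H458.Sp

/-- the algebraic integers in `ℂ` that lie in a number field of degree at most `δ` and have house
at most `H` -/
def smallInts (δ : ℕ) (H : ℝ) : Set ℂ :=
  {z | ∃ (K : Type) (_ : Field K) (_ : NumberField K) (τ : K →+* ℂ) (a : 𝓞 K),
    Module.finrank ℚ K ≤ δ ∧ hs a ≤ H ∧ z = τ (algebraMap (𝓞 K) K a)}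

theorem smallInts_finite (δ : ℕ) (H : ℝ) : (smallInts δ H).Finite := by
  classical
  let C : ℕ := ∑ D ∈ Finset.range (δ + 1), Nat.ceil (max H 1 ^ D * D.choose (D / 2))
  have := Polynomial.bUnion_roots_finite (algebraMap ℤ ℂ) δ (Set.finite_Icc (-C : ℤ) C)
  refine this.subset ?_
  rintro z ⟨K, _, _, τ, a, hδ, ha, rfl⟩
  simp_rw [Set.mem_iUnion]
  set x : K := algebraMap (𝓞 K) K a with hx
  have hint : IsIntegral ℤ x := a.2
  have h_map_ℚ_minpoly := minpoly.isIntegrallyClosed_eq_field_fractions' ℚ hint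
  refine ⟨minpoly ℤ x, ⟨?_, fun i => ?_⟩, ?_⟩
  · rw [← (minpoly.monic hint).natDegree_map (algebraMap ℤ ℚ), ← h_map_ℚ_minpoly]
    exact (minpoly.natDegree_le x).trans hδ
  · rw [Set.mem_Icc, ← abs_le, ← @Int.cast_le ℝ]
    have h1 := Embeddings.coeff_bdd_of_norm_le (K := K) (A := ℂ) (B := H)
      (x := x) (fun φ => (norm_embedding_le_house _ φ).trans ha) i
    have h2 : ‖(minpoly ℚ x).coeff i‖ = ((|(minpoly ℤ x).coeff i| : ℤ) : ℝ) := by
      rw [h_map_ℚ_minpoly, Polynomial.coeff_map, eq_intCast, Int.norm_cast_rat, Int.norm_eq_abs,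
        Int.cast_abs]
    rw [h2] at h1
    refine h1.trans ?_
    refine (Nat.le_ceil _).trans ?_
    have h3 : Nat.ceil (max H 1 ^ Module.finrank ℚ K *
        (Module.finrank ℚ K).choose (Module.finrank ℚ K / 2)) ≤ C :=
      Finset.single_le_sum (f := fun D => Nat.ceil (max H 1 ^ D * D.choose (D / 2)))
        (fun _ _ => Nat.zero_le _) (Finset.mem_range.2 (by omega))
    exact_mod_cast h3
  · rw [Finset.mem_coe, Multiset.mem_toFinset, Polynomial.mem_roots_map_of_injective]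
    · rw [← Polynomial.aeval_def]
      have h4 : Polynomial.aeval (τ x) (minpoly ℤ x) = τ (Polynomial.aeval x (minpoly ℤ x)) := by
        rw [Polynomial.aeval_def, Polynomial.aeval_def, Polynomial.hom_eval₂]
        congr 1
        exact RingHom.ext_int _ _
      rw [h4, minpoly.aeval, map_zero]
    · exact (algebraMap ℤ ℂ).injective_int
    · exact minpoly.ne_zero hint

/-- the complex points of the projective variety given by the forms in `FF` that lie off the
hypersurface `G = 0`, are defined over an extension `K` of `k` of absolute degree at most `δ`, and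
have homogeneous coordinates in `𝓞 K` which are `r`-sparse in some base `b ≥ 2`, with digits of
house at most `B` -/
def algPoints {k : Type} [Field k] [NumberField k] {n : ℕ}
    (FF : Finset (MvPolynomial (Fin (n + 1)) (𝓞 k))) (G : MvPolynomial (Fin (n + 1)) k) (r : ℕ)
    (B : ℝ) (δ : ℕ) : Set (Projectivization ℂ (Fin (n + 1) → ℂ)) :=
  {P | ∃ (K : Type) (_ : Field K) (_ : NumberField K) (_ : Algebra k K) (τ : K →+* ℂ)
    (x : Fin (n + 1) → 𝓞 K) (h : (fun i => τ (algebraMap (𝓞 K) K (x i))) ≠ 0),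
    Module.finrank ℚ K ≤ δ ∧ P = Projectivization.mk ℂ (fun i => τ (algebraMap (𝓞 K) K (x i))) h ∧
    (∀ F ∈ FF, MvPolynomial.aeval x F = 0) ∧
    MvPolynomial.aeval (fun i => algebraMap (𝓞 K) K (x i)) G ≠ 0 ∧
    ∃ b : ℕ, 2 ≤ b ∧ SparseVec b r B x}

/-- the complex points with homogeneous coordinates that are algebraic integers in one number
field of degree at most `δ` and have house at most `H` -/
def smallAlg (n δ : ℕ) (H : ℝ) : Set (Projectivization ℂ (Fin (n + 1) → ℂ)) :=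
  {P | ∃ (K : Type) (_ : Field K) (_ : NumberField K) (τ : K →+* ℂ)
    (y : Fin (n + 1) → 𝓞 K) (h : (fun i => τ (algebraMap (𝓞 K) K (y i))) ≠ 0),
    Module.finrank ℚ K ≤ δ ∧ P = Projectivization.mk ℂ (fun i => τ (algebraMap (𝓞 K) K (y i))) h ∧
    ∀ i, hs (y i) ≤ H}

theorem smallAlg_finite (n δ : ℕ) (H : ℝ) : (smallAlg n δ H).Finite := by
  classical
  have h3 : {y : Fin (n + 1) → ℂ | ∀ i, y i ∈ smallInts δ H}.Finite := by
    have := Set.Finite.pi' (fun _ : Fin (n + 1) => smallInts_finite δ H)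
    simpa using this
  refine (h3.biUnion (t := fun y => {P | ∃ (h : y ≠ 0),
    P = Projectivization.mk ℂ y h}) ?_).subset ?_
  · intro y _
    apply Set.Subsingleton.finite
    rintro P ⟨h, rfl⟩ Q ⟨h', rfl⟩
    rfl
  · rintro P ⟨K, iK, iN, τ, y, h, hδ, hP, hy⟩
    rw [Set.mem_iUnion₂]
    exact ⟨fun i => τ (algebraMap (𝓞 K) K (y i)),
      fun i => ⟨K, iK, iN, τ, y i, hδ, hy i, rfl⟩, h, hP⟩

theorem algPoints_small (k : Type) [Field k] [NumberField k] (n : ℕ)
    (FF : Finset (MvPolynomial (Fin (n + 1)) (𝓞 k))) (d : ℕ) (hd : 1 ≤ d) (A : ℝ) (hA : 1 ≤ A)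
    (hFF : ∀ F ∈ FF, (∃ e, e ≤ d ∧ F.IsHomogeneous e) ∧ nrm F ≤ A)
    (hprime : (idealK FF).IsPrime) (hnu : ¬ Uniruled (idealK FF)) (r : ℕ) (hr : 1 ≤ r) :
    ∃ G : MvPolynomial (Fin (n + 1)) k, (∃ e, G.IsHomogeneous e) ∧ G ∉ idealK FF ∧
      ∀ B : ℝ, 1 ≤ B → ∀ δ : ℕ, algPoints FF G r B δ ⊆ smallAlg n δ
          (Real.exp ((8 * d * (6 + 8 * d + 4 * Real.log A)) ^ r *
            (1 + Real.log B + Real.log (A * (r * B) ^ d)))) := by
  obtain ⟨G, h1, h2, h3⟩ := strong_small k n FF d hd (fun F hF => (hFF F hF).1) hprime hnu r hr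
  refine ⟨G, h1, h2, ?_⟩
  rintro B hB δ P ⟨K, iK, iN, iA, τ, x, hx, hδ, rfl, hzero, hGx, b, hb, m, v, hv, hxe⟩
  have hτ : Function.Injective τ := τ.injective
  have hinjK := FaithfulSMul.algebraMap_injective (𝓞 K) K
  have hx0 : x ≠ 0 := by
    rintro rfl
    apply hx
    funext i
    simp
  obtain ⟨y, hy0, hxy, hyB⟩ := h3 K A B hA hB (fun F hF => (nrm_map_le F).trans (hFF F hF).2) b hb
    m v hv x hx0 hxe hzero hGx
  have hy : (fun i => τ (algebraMap (𝓞 K) K (y i))) ≠ 0 := by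
    intro h
    apply hy0
    funext i
    have h4 := congrFun h i
    simp only [Pi.zero_apply] at h4
    exact hinjK (hτ (by rw [h4, Pi.zero_apply, map_zero, map_zero]))
  refine ⟨K, iK, iN, τ, y, hy, hδ, ?_, hyB⟩
  obtain ⟨j, hj⟩ : ∃ j, τ (algebraMap (𝓞 K) K (y j)) ≠ 0 := by
    by_contra hcon
    push Not at hcon
    exact hy (funext hcon)
  rw [Projectivization.mk_eq_mk_iff']
  refine ⟨τ (algebraMap (𝓞 K) K (x j)) / τ (algebraMap (𝓞 K) K (y j)), ?_⟩
  funext i
  simp only [Pi.smul_apply, smul_eq_mul]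
  rw [div_mul_eq_mul_div, div_eq_iff hj, ← map_mul, ← map_mul, ← map_mul, ← map_mul, hxy i j]

end Pool.Agent.H533R3.SL
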