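import Mathlib

set_option autoImplicit false

/-! # Uniform counting for vanishing sums of powers, over a ring with a discrete valuation

The exponent vectors `x` with `∑ g i * b ^ (x i) = 0` fall into at most `(k!) ^ 2` classes, `k` the
number of terms, such that any two elements of a class can be joined by a one-parameter family.
This is the argument of `Pool.Agent.H458.Sp.UCount`, with the integers replaced by a domain. -/

namespace Pool.Agent.H533R3.SL

open Finset

/-- a discrete valuation on the nonzero elements, with values in `ℕ` -/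
structure Val (R : Type) [CommRing R] where
  v : R → ℕ
  mul : ∀ a b : R, a ≠ 0 → b ≠ 0 → v (a * b) = v a + v b
  I : ℕ → AddSubgroup R
  mem : ∀ (a : R) (n : ℕ), a ≠ 0 → (a ∈ I n ↔ n ≤ v a)

theorem Val.one {R : Type} [CommRing R] [IsDomain R] (V : Val R) : V.v 1 = 0 := by
  have h := V.mul 1 1 one_ne_zero one_ne_zero
  rw [mul_one] at h
  omega

theorem Val.pow {R : Type} [CommRing R] [IsDomain R] (V : Val R) (b : R) (hb : b ≠ 0) (n : ℕ) :
    V.v (b ^ n) = n * V.v b := by
  induction n with
  | zero => rw [pow_zero, V.one, zero_mul]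
  | succ n ih => rw [pow_succ, V.mul _ _ (pow_ne_zero _ hb) hb, ih]; ring

theorem two_minimal {R : Type} [CommRing R] (V : Val R) {ι : Type} [DecidableEq ι] (s : Finset ι)
    (a : ι → R) (ha : ∀ i ∈ s, a i ≠ 0) (hs : s.Nonempty) (h0 : ∑ i ∈ s, a i = 0) :
    ∃ i ∈ s, ∃ j ∈ s, i ≠ j ∧ V.v (a i) = V.v (a j) := by
  obtain ⟨i, hi, hmin⟩ := Finset.exists_min_image s (fun i => V.v (a i)) hs
  by_contra hcon
  push Not at hcon
  have h1 : ∀ j ∈ s.erase i, a j ∈ V.I (V.v (a i) + 1) := by
    intro j hj
    rw [Finset.mem_erase] at hj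
    rw [V.mem _ _ (ha j hj.2)]
    have h2 := hmin j hj.2
    have h3 := hcon i hi j hj.2 (Ne.symm hj.1)
    omega
  have h2 : a i ∈ V.I (V.v (a i) + 1) := by
    have h3 : ∑ j ∈ s.erase i, a j ∈ V.I (V.v (a i) + 1) := AddSubgroup.sum_mem _ h1
    rw [← Finset.add_sum_erase s a hi] at h0
    have h4 : a i = -∑ j ∈ s.erase i, a j := eq_neg_of_add_eq_zero_left h0
    have h5 := (V.I (V.v (a i) + 1)).neg_mem h3
    rwa [← h4] at h5
  rw [V.mem _ _ (ha i hi)] at h2
  omega

/-- **uniform counting** -/
theorem coloring {R : Type} [CommRing R] [IsDomain R] (V : Val R) (b : R) (hb0 : b ≠ 0)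
    (hb1 : 1 ≤ V.v b) {ι : Type} [DecidableEq ι] : ∀ (k : ℕ) (s : Finset ι)
    (g : ι → R), s.card ≤ k → ∃ col : (ι → ℕ) → Fin ((Nat.factorial k) ^ 2),
      ∀ x x' : ι → ℕ, ∑ i ∈ s, g i * b ^ (x i) = 0 →
        ∑ i ∈ s, g i * b ^ (x' i) = 0 → col x = col x' →
        ∀ v : ℤ, ∑ i ∈ s.filter (fun i => (x' i : ℤ) - x i = v), g i * b ^ (x i) = 0 := by
  intro k
  induction k with
  | zero =>
    intro s g hs
    have : s = ∅ := Finset.card_eq_zero.1 (by omega)
    subst this
    exact ⟨fun _ => ⟨0, by simp⟩, fun x x' _ _ _ v => by simp⟩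
  | succ k ih =>
    intro s g hs
    have hbZ : b ≠ 0 := hb0
    have hlem : (Nat.factorial k) ^ 2 ≤ (Nat.factorial (k + 1)) ^ 2 :=
      Nat.pow_le_pow_left (Nat.factorial_le (Nat.le_succ k)) 2
    by_cases hz : ∃ i ∈ s, g i = 0
    · obtain ⟨i, hi, hgi⟩ := hz
      obtain ⟨col, hcol⟩ := ih (s.erase i) g (by rw [Finset.card_erase_of_mem hi]; omega)
      refine ⟨fun x => Fin.castLE hlem (col x), fun x x' hx hx' hc v => ?_⟩
      have h1 : ∀ y : ι → ℕ, ∑ i ∈ s.erase i, g i * b ^ (y i) =
          ∑ i ∈ s, g i * b ^ (y i) := by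
        intro y
        rw [← Finset.add_sum_erase s _ hi, hgi, zero_mul, zero_add]
      have h2 := hcol x x' (by rw [h1]; exact hx) (by rw [h1]; exact hx')
        (Fin.castLE_injective hlem hc) v
      rw [Finset.sum_filter] at h2 ⊢
      rw [← Finset.add_sum_erase s _ hi, h2, add_zero, hgi, zero_mul, ite_self]
    · push Not at hz
      rcases s.eq_empty_or_nonempty with hse | hse
      · subst hse
        exact ⟨fun _ => ⟨0, by positivity⟩, fun x x' _ _ _ v => by simp⟩
      set β := V.v b with hβ
      have hβ1 : 1 ≤ β := hb1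
      have hval : ∀ (i : ι) (n : ℕ), i ∈ s →
          V.v (g i * b ^ n) = V.v (g i) + n * β := by
        intro i n hi
        rw [V.mul _ _ (hz i hi) (pow_ne_zero _ hbZ), V.pow b hbZ]
      -- the pairs
      set DD : ι → ι → ℕ := fun i j => (V.v (g j) - V.v (g i)) / β with hDD
      have hpair : ∀ x : ι → ℕ, ∑ i ∈ s, g i * b ^ (x i) = 0 →
          ∃ w : {i // i ∈ s} × {i // i ∈ s}, w.1.1 ≠ w.2.1 ∧ x w.1.1 = x w.2.1 + DD w.1.1 w.2.1 := by
        intro x hx
        obtain ⟨i, hi, j, hj, hij, hv⟩ := two_minimal V s (fun i => g i * b ^ (x i))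
          (fun i hi => mul_ne_zero (hz i hi) (pow_ne_zero _ hbZ)) hse hx
        rw [hval i _ hi, hval j _ hj] at hv
        have key : ∀ (i j : ι), V.v (g i) + x i * β = V.v (g j) + x j * β →
            x j ≤ x i → x i = x j + DD i j := by
          intro i j hv h
          obtain ⟨n, hn⟩ : ∃ n, x i = x j + n := ⟨x i - x j, by omega⟩
          have h1 : V.v (g j) - V.v (g i) = n * β := by
            rw [hn, add_mul] at hv
            omega
          rw [hDD]
          simp only
          rw [h1, Nat.mul_div_cancel _ (by omega), hn]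
        rcases le_total (x j) (x i) with h | h
        · exact ⟨(⟨i, hi⟩, ⟨j, hj⟩), hij, key i j hv h⟩
        · exact ⟨(⟨j, hj⟩, ⟨i, hi⟩), Ne.symm hij, key j i hv.symm h⟩
      -- the merged sums
      have hih : ∀ w : {i // i ∈ s} × {i // i ∈ s},
          ∃ col : (ι → ℕ) → Fin ((Nat.factorial k) ^ 2),
            ∀ x x' : ι → ℕ,
            ∑ i ∈ s.erase w.1.1, (Function.update g w.2.1 (g w.2.1 +
              g w.1.1 * b ^ (DD w.1.1 w.2.1))) i * b ^ (x i) = 0 →
            ∑ i ∈ s.erase w.1.1, (Function.update g w.2.1 (g w.2.1 +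
              g w.1.1 * b ^ (DD w.1.1 w.2.1))) i * b ^ (x' i) = 0 →
            col x = col x' →
            ∀ v : ℤ, ∑ i ∈ (s.erase w.1.1).filter (fun i => (x' i : ℤ) - x i = v),
              (Function.update g w.2.1 (g w.2.1 +
              g w.1.1 * b ^ (DD w.1.1 w.2.1))) i * b ^ (x i) = 0 := fun w =>
        ih (s.erase w.1.1) _ (by rw [Finset.card_erase_of_mem w.1.2]; omega)
      choose cl hcl using hih
      classical
      set pr : (ι → ℕ) → {i // i ∈ s} × {i // i ∈ s} := fun x =>
        if h : ∑ i ∈ s, g i * b ^ (x i) = 0 then (hpair x h).choose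
        else (⟨hse.choose, hse.choose_spec⟩, ⟨hse.choose, hse.choose_spec⟩) with hpr
      have hprs : ∀ x : ι → ℕ, ∑ i ∈ s, g i * b ^ (x i) = 0 →
          (pr x).1.1 ≠ (pr x).2.1 ∧ x (pr x).1.1 = x (pr x).2.1 + DD (pr x).1.1 (pr x).2.1 := by
        intro x h
        have h1 : pr x = (hpair x h).choose := by
          rw [hpr]
          simp only
          rw [dif_pos h]
        rw [h1]
        exact (hpair x h).choose_spec
      -- the colours
      have hcard : Fintype.card (({i // i ∈ s} × {i // i ∈ s}) × Fin ((Nat.factorial k) ^ 2)) ≤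
          (Nat.factorial (k + 1)) ^ 2 := by
        rw [Fintype.card_prod, Fintype.card_prod, Fintype.card_coe, Fintype.card_fin,
          Nat.factorial_succ, mul_pow]
        refine Nat.mul_le_mul_right _ ?_
        rw [pow_two]
        exact Nat.mul_le_mul hs hs
      obtain ⟨emb⟩ : Nonempty ((({i // i ∈ s} × {i // i ∈ s}) × Fin ((Nat.factorial k) ^ 2)) ↪
          Fin ((Nat.factorial (k + 1)) ^ 2)) :=
        Function.Embedding.nonempty_of_card_le (by rw [Fintype.card_fin]; exact hcard)
      refine ⟨fun x => emb (pr x, cl (pr x) x), fun x x' hx hx' hc v => ?_⟩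
      have hc1 := emb.injective hc
      rw [Prod.mk.injEq] at hc1
      obtain ⟨hc2, hc3⟩ := hc1
      have hA := hprs x hx
      have hB := hprs x' hx'
      rw [← hc2] at hB hc3
      set w := pr x with hw
      set i := w.1.1 with hi
      set j := w.2.1 with hj
      have his : i ∈ s := w.1.2
      have hjs : j ∈ s.erase i := Finset.mem_erase.2 ⟨Ne.symm hA.1, w.2.2⟩
      set D := DD i j with hD
      set g' := Function.update g j (g j + g i * b ^ D) with hg'
      have hg'j : g' j = g j + g i * b ^ D := Function.update_self _ _ _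
      have hg'o : ∀ t, t ≠ j → g' t = g t := fun t ht => Function.update_of_ne ht _ _
      -- the merged sum with arbitrary weights
      have hmerge : ∀ (y : ι → ℕ) (ω : ι → R), y i = y j + D → ω i = ω j →
          ∑ t ∈ s.erase i, ω t * (g' t * b ^ (y t)) =
            ∑ t ∈ s, ω t * (g t * b ^ (y t)) := by
        intro y ω h1 h2
        rw [← Finset.add_sum_erase s _ his, ← Finset.add_sum_erase (s.erase i) _ hjs,
          ← Finset.add_sum_erase (s.erase i) (fun t => ω t * (g t * b ^ (y t))) hjs]
        have h3 : ∑ t ∈ (s.erase i).erase j, ω t * (g' t * b ^ (y t)) =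
            ∑ t ∈ (s.erase i).erase j, ω t * (g t * b ^ (y t)) := by
          refine Finset.sum_congr rfl fun t ht => ?_
          rw [hg'o t (Finset.ne_of_mem_erase ht)]
        rw [h3, hg'j, h1, h2, pow_add]
        ring
      have hmerge1 : ∀ y : ι → ℕ, y i = y j + D →
          ∑ t ∈ s.erase i, g' t * b ^ (y t) = ∑ t ∈ s, g t * b ^ (y t) := by
        intro y h1
        have := hmerge y (fun _ => 1) h1 rfl
        simpa only [one_mul] using this
      have h4 := hcl w x x' (by rw [hmerge1 x hA.2]; exact hx) (by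
        rw [hmerge1 x' hB.2]; exact hx') hc3 v
      rw [Finset.sum_filter] at h4 ⊢
      have h5 := hmerge x (fun t => if (x' t : ℤ) - x t = v then 1 else 0) hA.2 (by
        have h6 := hA.2
        have h7 := hB.2
        have h8 : (x' i : ℤ) - x i = (x' j : ℤ) - x j := by
          rw [h6, h7]
          push_cast
          ring
        simp only [h8])
      simp only [ite_mul, one_mul, zero_mul] at h5
      rw [← h5]
      exact h4

end Pool.Agent.H533R3.SL
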