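import Mathlib
import Pool.Agent.H458.Sp.Points
import Pool.Agent.H533R3.SL.UCountV

set_option autoImplicit false

/-! # Uniform bounds for the number of sparse points on varieties without rational curves -/

namespace Pool.Agent.H533R3.SL

open Finset NumberField MvPolynomial Pool.Agent.H458.Sp

variable {K : Type} [Field K] [NumberField K] {n r : ℕ}

/-- the valuation of a nonzero prime ideal -/
noncomputable def valOf (𝔭 : Ideal (𝓞 K)) (h : 𝔭.IsPrime) (h0 : 𝔭 ≠ ⊥) : Val (𝓞 K) where
  v a := multiplicity 𝔭 (Ideal.span {a})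
  mul a b ha hb := by
    rw [← Ideal.span_singleton_mul_span_singleton]
    refine multiplicity_mul (Ideal.prime_of_isPrime h0 h) ?_
    refine FiniteMultiplicity.of_prime_left (Ideal.prime_of_isPrime h0 h) ?_
    refine mul_ne_zero ?_ ?_
    · simpa [Ideal.zero_eq_bot] using ha
    · simpa [Ideal.zero_eq_bot] using hb
  I n := (𝔭 ^ n).toAddSubgroup
  mem a n ha := by
    have hf : FiniteMultiplicity 𝔭 (Ideal.span {a}) :=
      FiniteMultiplicity.of_prime_left (Ideal.prime_of_isPrime h0 h)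
        (by simpa [Ideal.zero_eq_bot] using ha)
    rw [← hf.pow_dvd_iff_le_multiplicity, Ideal.dvd_span_singleton]
    rfl

theorem exists_val (b : 𝓞 K) (hb0 : b ≠ 0) (hbu : ¬ IsUnit b) : ∃ V : Val (𝓞 K), 1 ≤ V.v b := by
  obtain ⟨𝔭, h𝔭, hb⟩ := exists_max_ideal_of_mem_nonunits hbu
  have h0 : 𝔭 ≠ ⊥ := by
    rintro rfl
    exact hb0 (by simpa using hb)
  refine ⟨valOf 𝔭 h𝔭.isPrime h0, ?_⟩
  rw [← (valOf 𝔭 h𝔭.isPrime h0).mem b 1 hb0]
  show b ∈ 𝔭 ^ 1
  rw [pow_one]
  exact hb

theorem aeval_GG {S : Type} [CommRing S] [Algebra (𝓞 K) S] (v : Fin r → Fin (n + 1) → 𝓞 K)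
    (F : MvPolynomial (Fin (n + 1)) (𝓞 K)) (u : Fin r → S) :
    aeval (fun i => ∑ j, algebraMap (𝓞 K) S (v j i) * u j) F =
      ∑ α ∈ (GG v F).support, algebraMap (𝓞 K) S (coeff α (GG v F)) * ∏ j, u j ^ α j := by
  have h1 : aeval u (GG v F) = aeval (fun i => ∑ j, algebraMap (𝓞 K) S (v j i) * u j) F := by
    unfold GG
    rw [aeval_bind₁]
    congr 2
    funext i
    simp [lin]
  rw [← h1, aeval_def, eval₂_eq']

theorem prod_pow_ex (b : 𝓞 K) (e : Fin r → ℕ) (α : Fin r →₀ ℕ) :
    ∏ j, (b ^ (e j)) ^ α j = b ^ (ex e α) := by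
  unfold ex
  rw [← Finset.prod_pow_eq_pow_sum]
  refine Finset.prod_congr rfl fun j _ => ?_
  rw [← pow_mul, mul_comm]

theorem eval_powV (b : 𝓞 K) (e : Fin r → ℕ) (v : Fin r → Fin (n + 1) → 𝓞 K)
    (F : MvPolynomial (Fin (n + 1)) (𝓞 K)) :
    aeval (fun i => ∑ j, v j i * b ^ (e j)) F =
      ∑ α ∈ (GG v F).support, coeff α (GG v F) * b ^ (ex e α) := by
  have h := aeval_GG (S := 𝓞 K) v F (fun j => b ^ (e j))
  simp only [Algebra.algebraMap_self, RingHom.id_apply] at h
  rw [h]
  exact Finset.sum_congr rfl fun α _ => by rw [prod_pow_ex]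

theorem GG_card (v : Fin r → Fin (n + 1) → 𝓞 K) (F : MvPolynomial (Fin (n + 1)) (𝓞 K)) (D d : ℕ)
    (hD : D ≤ d) (hF : F.IsHomogeneous D) : (GG v F).support.card ≤ (d + 1) ^ r := by
  classical
  have h1 : (Fintype.piFinset (fun _ : Fin r => range (d + 1))).card = (d + 1) ^ r := by
    rw [Fintype.card_piFinset]
    simp
  rw [← h1]
  refine Finset.card_le_card_of_injOn (fun α => (α : Fin r → ℕ)) ?_ ?_
  · intro α hα
    rw [Finset.mem_coe, Fintype.mem_piFinset]
    intro j
    rw [Finset.mem_range]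
    show α j < d + 1
    have h2 := homog_sum (GG_homog v F D hF) hα
    have h3 : α j ≤ ∑ j, α j :=
      Finset.single_le_sum (f := fun i => α i) (fun _ _ => Nat.zero_le _) (Finset.mem_univ j)
    omega
  · intro α _ β _ h
    exact DFunLike.coe_injective h

/-- two exponent vectors of the same class are joined by a polynomial curve -/
theorem joinedV (b : 𝓞 K) (v : Fin r → Fin (n + 1) → 𝓞 K) (e e' : Fin r → ℕ) :
    ∃ p : Fin (n + 1) → Polynomial (𝓞 K),
      (∀ i, (p i).eval 1 = ∑ j, v j i * b ^ (e j)) ∧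
      (∃ k : ℕ, ∀ i, (p i).eval b = b ^ k * ∑ j, v j i * b ^ (e' j)) ∧
      ∀ (F : MvPolynomial (Fin (n + 1)) (𝓞 K)) (D : ℕ), F.IsHomogeneous D →
        (∀ w : ℤ, ∑ α ∈ (GG v F).support.filter
          (fun α => ((ex e' α : ℕ) : ℤ) - ex e α = w), coeff α (GG v F) * b ^ (ex e α) = 0) →
        aeval p F = 0 := by
  classical
  set k := ∑ j, e j with hk
  have hek : ∀ j, e j ≤ k := fun j =>
    Finset.single_le_sum (f := e) (fun _ _ => Nat.zero_le _) (Finset.mem_univ j)
  set l : Fin r → ℕ := fun j => e' j + (k - e j) with hl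
  have hel : ∀ j, e j + l j = k + e' j := by
    intro j
    have := hek j
    rw [hl]
    simp only
    omega
  refine ⟨fun i => ∑ j, Polynomial.C (v j i) * (Polynomial.C (b ^ (e j)) * Polynomial.X ^ (l j)),
    ?_, ⟨k, ?_⟩, ?_⟩
  · intro i
    rw [Polynomial.eval_finsetSum]
    refine Finset.sum_congr rfl fun j _ => ?_
    simp
  · intro i
    rw [Polynomial.eval_finsetSum, Finset.mul_sum]
    refine Finset.sum_congr rfl fun j _ => ?_
    simp only [Polynomial.eval_mul, Polynomial.eval_C, Polynomial.eval_pow, Polynomial.eval_X]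
    rw [← pow_add, hel, pow_add]
    ring
  · intro F D hF hcomp
    have hexx : ∀ α ∈ (GG v F).support, ex l α + ex e α = ex e' α + D * k := by
      intro α hα
      have hD := homog_sum (GG_homog v F D hF) hα
      unfold ex
      rw [← Finset.sum_add_distrib, ← hD, Finset.sum_mul, ← Finset.sum_add_distrib]
      refine Finset.sum_congr rfl fun j _ => ?_
      rw [← mul_add, ← mul_add, add_comm (l j), hel, add_comm k]
    have h1 := aeval_GG (S := Polynomial (𝓞 K)) v F
      (fun j => Polynomial.C (b ^ (e j)) * Polynomial.X ^ (l j))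
    have h2 : (fun i => ∑ j, algebraMap (𝓞 K) (Polynomial (𝓞 K)) (v j i) *
        (Polynomial.C (b ^ (e j)) * Polynomial.X ^ (l j))) =
        fun i => ∑ j, Polynomial.C (v j i) *
          (Polynomial.C (b ^ (e j)) * Polynomial.X ^ (l j)) := by
      funext i
      refine Finset.sum_congr rfl fun j _ => ?_
      rw [Polynomial.algebraMap_apply]
      rfl
    rw [h2] at h1
    rw [h1]
    have h3 : ∀ α ∈ (GG v F).support, algebraMap (𝓞 K) (Polynomial (𝓞 K)) (coeff α (GG v F)) *
        ∏ j, (Polynomial.C (b ^ (e j)) * Polynomial.X ^ (l j)) ^ α j =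
        Polynomial.C (coeff α (GG v F) * b ^ (ex e α)) * Polynomial.X ^ (ex l α) := by
      intro α _
      have h4 : ∏ j, (Polynomial.C (b ^ (e j)) * Polynomial.X ^ (l j) : Polynomial (𝓞 K)) ^ α j =
          Polynomial.C (b ^ (ex e α)) * Polynomial.X ^ (ex l α) := by
        simp_rw [mul_pow]
        rw [Finset.prod_mul_distrib]
        congr 1
        · rw [← prod_pow_ex, map_prod]
          simp
        · unfold ex
          rw [← Finset.prod_pow_eq_pow_sum]
          refine Finset.prod_congr rfl fun j _ => ?_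
          rw [← pow_mul, mul_comm]
      rw [h4, Polynomial.algebraMap_apply, Polynomial.C_mul, mul_assoc]
      rfl
    rw [Finset.sum_congr rfl h3]
    refine Polynomial.ext fun w => ?_
    rw [Polynomial.finsetSum_coeff, Polynomial.coeff_zero]
    simp_rw [Polynomial.coeff_C_mul_X_pow]
    rw [← Finset.sum_filter]
    have h5 : (GG v F).support.filter (fun α => w = ex l α) =
        (GG v F).support.filter
          (fun α => ((ex e' α : ℕ) : ℤ) - ex e α = (w : ℤ) - D * k) := by
      refine Finset.filter_congr fun α hα => ?_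
      have h4 : (ex l α : ℤ) + ex e α = ex e' α + D * k := by exact_mod_cast hexx α hα
      constructor
      · intro h
        rw [h]
        linarith
      · intro h
        have h5 : (w : ℤ) = ex l α := by linarith
        exact_mod_cast h5
    rw [h5]
    exact hcomp _

/-- every map from the line to the variety, given by polynomials over `𝓞 K` that are not all
zero at `1`, is constant -/
def NoRat {N : ℕ} (P : Fin N → MvPolynomial (Fin (n + 1)) (𝓞 K)) : Prop :=
  ∀ p : Fin (n + 1) → Polynomial (𝓞 K), (∀ i, aeval p (P i) = 0) →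
    (fun i => (p i).eval 1) ≠ 0 →
    ∀ (t : 𝓞 K) (i j : Fin (n + 1)), (p i).eval t * (p j).eval 1 = (p j).eval t * (p i).eval 1

/-- the `K`-points of the variety with homogeneous coordinates that are combinations of the same
`r` powers of `b` with coefficients in the finite set `V` -/
def sparsePts {N : ℕ} (P : Fin N → MvPolynomial (Fin (n + 1)) (𝓞 K)) (b : 𝓞 K) (r : ℕ)
    (V : Finset (𝓞 K)) : Set (Projectivization K (Fin (n + 1) → K)) :=
  {Q | ∃ (x : Fin (n + 1) → 𝓞 K) (h : (fun i => algebraMap (𝓞 K) K (x i)) ≠ 0),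
    Q = Projectivization.mk K (fun i => algebraMap (𝓞 K) K (x i)) h ∧
    (∀ i, aeval x (P i) = 0) ∧
    ∃ (m : Fin r → ℕ) (v : Fin r → Fin (n + 1) → 𝓞 K), (∀ j i, v j i ∈ V) ∧
      ∀ i, x i = ∑ j, v j i * b ^ (m j)}

/-- **uniform bound** -/
theorem card_sparsePts {N : ℕ} (P : Fin N → MvPolynomial (Fin (n + 1)) (𝓞 K)) (d : ℕ)
    (hP : ∀ i, ∃ e, e ≤ d ∧ (P i).IsHomogeneous e) (hyp : NoRat P) (b : 𝓞 K) (hb0 : b ≠ 0)
    (hbu : ¬ IsUnit b) (r : ℕ) (V : Finset (𝓞 K)) :
    (sparsePts P b r V).encard ≤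
      ((V.card ^ ((n + 1) * r) * ((Nat.factorial ((d + 1) ^ r)) ^ 2) ^ N : ℕ) : ℕ∞) := by
  classical
  obtain ⟨W, hW⟩ := exists_val b hb0 hbu
  set M := (d + 1) ^ r with hM
  choose D hD hDh using hP
  have hcol := fun (v : Fin r → Fin (n + 1) → 𝓞 K) (i : Fin N) =>
    coloring W b hb0 hW M (GG v (P i)).support (fun α => coeff α (GG v (P i)))
      (GG_card v (P i) (D i) d (hD i) (hDh i))
  choose col hcol using hcol
  set S := sparsePts P b r V with hS
  have hex : ∀ q : S, ∃ w : (Fin r → ℕ) × (Fin r → Fin (n + 1) → {z // z ∈ V}),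
      ∃ h : (fun i => algebraMap (𝓞 K) K (∑ j, (w.2 j i).1 * b ^ (w.1 j))) ≠ 0,
      q.1 = Projectivization.mk K
        (fun i => algebraMap (𝓞 K) K (∑ j, (w.2 j i).1 * b ^ (w.1 j))) h ∧
      ∀ t, aeval (fun i => ∑ j, (w.2 j i).1 * b ^ (w.1 j)) (P t) = 0 := by
    rintro ⟨q, x, h, hq, hz, m, v, hv, hx⟩
    have hx' : x = fun i => ∑ j, v j i * b ^ (m j) := funext hx
    subst hx'
    exact ⟨(m, fun j i => ⟨v j i, hv j i⟩), h, hq, hz⟩
  choose w hw0 hwq hwz using hex
  set F : S → (Fin r → Fin (n + 1) → {z // z ∈ V}) × (Fin N → Fin ((Nat.factorial M) ^ 2)) :=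
    fun q => ((w q).2, fun t => col (fun j i => ((w q).2 j i).1) t (fun α => ex (w q).1 α))
    with hF
  have hinj : Function.Injective F := by
    intro q q' hqq
    rw [hF] at hqq
    simp only [Prod.mk.injEq] at hqq
    obtain ⟨hc, hcl⟩ := hqq
    have hz := hwz q
    have hz' := hwz q'
    have h0' := hw0 q'
    have hq' := hwq q'
    rw [← hc] at hz' hcl
    have hcomp : ∀ t, ∀ u : ℤ, ∑ α ∈ (GG (fun j i => ((w q).2 j i).1) (P t)).support.filter
        (fun α => ((ex (w q').1 α : ℕ) : ℤ) - ex (w q).1 α = u),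
        coeff α (GG (fun j i => ((w q).2 j i).1) (P t)) * b ^ (ex (w q).1 α) = 0 := by
      intro t
      refine hcol (fun j i => ((w q).2 j i).1) t (fun α => ex (w q).1 α)
        (fun α => ex (w q').1 α) ?_ ?_ (congrFun hcl t)
      · rw [← eval_powV]
        exact hz t
      · rw [← eval_powV]
        exact hz' t
    obtain ⟨p, hp1, ⟨k, hpb⟩, hpF⟩ := joinedV b (fun j i => ((w q).2 j i).1) (w q).1 (w q').1
    have hpP : ∀ t, aeval p (P t) = 0 := fun t => hpF (P t) (D t) (hDh t) (hcomp t)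
    have hne : (fun i => (p i).eval 1) ≠ 0 := by
      have h1 := (ne_zero_iff (fun i => ∑ j, ((w q).2 j i).1 * b ^ ((w q).1 j))).1 (hw0 q)
      intro h2
      apply h1
      rw [← h2]
      funext i
      exact (hp1 i).symm
    have hcon := hyp p hpP hne b
    have hbk : b ^ k ≠ 0 := pow_ne_zero _ hb0
    apply Subtype.ext
    rw [hwq q, hq']
    refine mk_eq _ _ _ _ fun i j => ?_
    have h1 := hcon i j
    rw [hp1, hp1, hpb, hpb] at h1
    rw [← hc]
    apply mul_left_cancel₀ hbk
    linear_combination -h1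
  have hfin : Finite S := Finite.of_injective F hinj
  have hcard : Nat.card S ≤ V.card ^ ((n + 1) * r) * ((Nat.factorial M) ^ 2) ^ N := by
    have h1 := Nat.card_le_card_of_injective F hinj
    refine h1.trans (le_of_eq ?_)
    rw [Nat.card_eq_fintype_card, Fintype.card_prod]
    congr 1
    · rw [Fintype.card_fun, Fintype.card_fun, Fintype.card_coe, Fintype.card_fin,
        Fintype.card_fin, ← pow_mul]
    · rw [Fintype.card_fun, Fintype.card_fin, Fintype.card_fin]
  have hSfin : S.Finite := Set.toFinite S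
  rw [← hSfin.cast_ncard_eq]
  have h3 : S.ncard ≤ V.card ^ ((n + 1) * r) * ((Nat.factorial M) ^ 2) ^ N := hcard
  exact_mod_cast h3

/-- Brody hyperbolic varieties satisfy the hypothesis -/
theorem noRat_of_brody {N : ℕ} (P : Fin N → MvPolynomial (Fin (n + 1)) (𝓞 K))
    (hP : ∀ i, ∃ e, (P i).IsHomogeneous e) (σ : K →+* ℂ)
    (hyp : BrodyHyperbolic ((MvPolynomial.map (σ.comp (algebraMap (𝓞 K) K))) '' Set.range P)) :
    NoRat P := by
  intro p hp hne t i j
  have h := no_curve σ (Set.range P) (by rintro _ ⟨i, rfl⟩; exact hP i) hyp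
    (fun i => (p i).eval 1) hne p (fun i => rfl) (by rintro _ ⟨i, rfl⟩; exact hp i) i j
  have h1 := congrArg (Polynomial.eval t) h
  simpa using h1

end Pool.Agent.H533R3.SL
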