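import Mathlib
import Pool.Agent.H533R3.SL.Asm
import Pool.Agent.H533R3.SL.UCountMain

set_option autoImplicit false

/-! # Uniform bounds for the number of sparse points off a hypersurface -/

namespace Pool.Agent.H533R3.SL

open Finset NumberField MvPolynomial Pool.Agent.H458.Sp

variable {K : Type} [Field K] [NumberField K] {n r : ℕ}

/-- two exponent vectors of the same class are joined by a polynomial curve with `r` terms -/
theorem joinedC (b : 𝓞 K) (v : Fin r → Fin (n + 1) → 𝓞 K) (e e' : Fin r → ℕ) :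
    ∃ l : Fin r → ℕ,
      (∃ k : ℕ, ∀ i, (cur (fun j i => v j i * b ^ (e j)) l i).eval b =
        b ^ k * ∑ j, v j i * b ^ (e' j)) ∧
      ∀ (F : MvPolynomial (Fin (n + 1)) (𝓞 K)) (D : ℕ), F.IsHomogeneous D →
        (∀ w : ℤ, ∑ α ∈ (GG v F).support.filter
          (fun α => ((ex e' α : ℕ) : ℤ) - ex e α = w), coeff α (GG v F) * b ^ (ex e α) = 0) →
        aeval (cur (fun j i => v j i * b ^ (e j)) l) F = 0 := by
  classical
  set k := ∑ j, e j with hk
  have hek : ∀ j, e j ≤ k := fun j =>
    Finset.single_le_sum (f := e) (fun _ _ => Nat.zero_le _) (Finset.mem_univ j)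
  set l : Fin r → ℕ := fun j => e' j + (k - e j) with hl
  have hel : ∀ j, e j + l j = k + e' j := by
    intro j
    have := hek j
    rw [hl]
    simp only
    omega
  refine ⟨l, ⟨k, ?_⟩, ?_⟩
  · intro i
    unfold cur
    rw [Polynomial.eval_finsetSum, Finset.mul_sum]
    refine Finset.sum_congr rfl fun j _ => ?_
    simp only [Polynomial.eval_mul, Polynomial.eval_C, Polynomial.eval_pow, Polynomial.eval_X]
    rw [mul_assoc, ← pow_add, hel, pow_add]
    ring
  · intro F D hF hcomp
    have hexx : ∀ α ∈ (GG v F).support, ex l α + ex e α = ex e' α + D * k := by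
      intro α hα
      have hD := homog_sum (GG_homog v F D hF) hα
      unfold ex
      rw [← Finset.sum_add_distrib, ← hD, Finset.sum_mul, ← Finset.sum_add_distrib]
      refine Finset.sum_congr rfl fun j _ => ?_
      rw [← mul_add, ← mul_add, add_comm (l j), hel, add_comm k]
    have h1 := aeval_GG (S := Polynomial (𝓞 K)) v F
      (fun j => Polynomial.C (b ^ (e j)) * Polynomial.X ^ (l j))
    have h2 : (fun i => ∑ j, algebraMap (𝓞 K) (Polynomial (𝓞 K)) (v j i) *
        (Polynomial.C (b ^ (e j)) * Polynomial.X ^ (l j))) =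
        cur (fun j i => v j i * b ^ (e j)) l := by
      funext i
      unfold cur
      refine Finset.sum_congr rfl fun j _ => ?_
      rw [Polynomial.algebraMap_apply, Polynomial.C_mul, mul_assoc]
      rfl
    rw [h2] at h1
    rw [h1]
    have h3 : ∀ α ∈ (GG v F).support, algebraMap (𝓞 K) (Polynomial (𝓞 K)) (coeff α (GG v F)) *
        ∏ j, (Polynomial.C (b ^ (e j)) * Polynomial.X ^ (l j)) ^ α j =
        Polynomial.C (coeff α (GG v F) * b ^ (ex e α)) * Polynomial.X ^ (ex l α) := by
      intro α _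
      have h4 : ∏ j, (Polynomial.C (b ^ (e j)) * Polynomial.X ^ (l j) : Polynomial (𝓞 K)) ^ α j =
          Polynomial.C (b ^ (ex e α)) * Polynomial.X ^ (ex l α) := by
        simp_rw [mul_pow]
        rw [Finset.prod_mul_distrib]
        congr 1
        · rw [← prod_pow_ex, map_prod]
          simp
        · unfold ex
          rw [← Finset.prod_pow_eq_pow_sum]
          refine Finset.prod_congr rfl fun j _ => ?_
          rw [← pow_mul, mul_comm]
      rw [h4, Polynomial.algebraMap_apply, Polynomial.C_mul, mul_assoc]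
      rfl
    rw [Finset.sum_congr rfl h3]
    refine Polynomial.ext fun w => ?_
    rw [Polynomial.finsetSum_coeff, Polynomial.coeff_zero]
    simp_rw [Polynomial.coeff_C_mul_X_pow]
    rw [← Finset.sum_filter]
    have h5 : (GG v F).support.filter (fun α => w = ex l α) =
        (GG v F).support.filter
          (fun α => ((ex e' α : ℕ) : ℤ) - ex e α = (w : ℤ) - D * k) := by
      refine Finset.filter_congr fun α hα => ?_
      have h4 : (ex l α : ℤ) + ex e α = ex e' α + D * k := by exact_mod_cast hexx α hα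
      constructor
      · intro h
        rw [h]
        linarith
      · intro h
        have h5 : (w : ℤ) = ex l α := by linarith
        exact_mod_cast h5
    rw [h5]
    exact hcomp _

/-- the `K`-points of the projective variety over `k` given by the forms `P i` that lie off the
hypersurface `G = 0` and have homogeneous coordinates that are combinations of the same `r` powers
of `b` with coefficients in the finite set `V` -/
def sparseOff {k : Type} [Field k] [NumberField k] {N : ℕ}
    (P : Fin N → MvPolynomial (Fin (n + 1)) (𝓞 k)) (G : MvPolynomial (Fin (n + 1)) k)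
    (K : Type) [Field K] [NumberField K] [Algebra k K] (b : 𝓞 K) (r : ℕ) (V : Finset (𝓞 K)) :
    Set (Projectivization K (Fin (n + 1) → K)) :=
  {Q | ∃ (x : Fin (n + 1) → 𝓞 K) (h : (fun i => algebraMap (𝓞 K) K (x i)) ≠ 0),
    Q = Projectivization.mk K (fun i => algebraMap (𝓞 K) K (x i)) h ∧
    (∀ i, aeval x (P i) = 0) ∧ aeval (fun i => algebraMap (𝓞 K) K (x i)) G ≠ 0 ∧
    ∃ (m : Fin r → ℕ) (v : Fin r → Fin (n + 1) → 𝓞 K), (∀ j i, v j i ∈ V) ∧
      ∀ i, x i = ∑ j, v j i * b ^ (m j)}

/-- the ideal over `k` generated by the forms -/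
noncomputable def idealP {k : Type} [Field k] {N : ℕ}
    (P : Fin N → MvPolynomial (Fin (n + 1)) (𝓞 k)) : Ideal (MvPolynomial (Fin (n + 1)) k) :=
  Ideal.span ((MvPolynomial.map (algebraMap (𝓞 k) k)) '' Set.range P)

/-- **uniform bound off a hypersurface** -/
theorem card_sparseOff (k : Type) [Field k] [NumberField k] {N : ℕ}
    (P : Fin N → MvPolynomial (Fin (n + 1)) (𝓞 k)) (d : ℕ) (hd : 1 ≤ d)
    (hP : ∀ i, ∃ e, e ≤ d ∧ (P i).IsHomogeneous e) (hprime : (idealP P).IsPrime)
    (hnu : ¬ Uniruled (idealP P)) (r : ℕ) :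
    ∃ G : MvPolynomial (Fin (n + 1)) k, (∃ e, G.IsHomogeneous e) ∧ G ∉ idealP P ∧
      ∀ (K : Type) [Field K] [NumberField K] [Algebra k K] (b : 𝓞 K), b ≠ 0 → ¬ IsUnit b →
        ∀ V : Finset (𝓞 K), (sparseOff P G K b r V).encard ≤
          ((V.card ^ ((n + 1) * r) * ((Nat.factorial ((d + 1) ^ r)) ^ 2) ^ N : ℕ) : ℕ∞) := by
  classical
  obtain ⟨G, hG1, hG2, hG3⟩ := exists_hyper
    ((MvPolynomial.map (algebraMap (𝓞 k) k)) '' Set.range P) hprime hnu d hd (by
      rintro _ ⟨_, ⟨i, rfl⟩, rfl⟩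
      obtain ⟨e, he, hFe⟩ := hP i
      exact ⟨e, he, hFe.map _⟩) r
  refine ⟨G, hG1, hG2, ?_⟩
  intro K _ _ _ b hb0 hbu V
  obtain ⟨W, hW⟩ := exists_val b hb0 hbu
  set M := (d + 1) ^ r with hM
  choose D hD hDh using hP
  set PK : Fin N → MvPolynomial (Fin (n + 1)) (𝓞 K) := fun i =>
    MvPolynomial.map (algebraMap (𝓞 k) (𝓞 K)) (P i) with hPK
  have hPKh : ∀ i, (PK i).IsHomogeneous (D i) := fun i => (hDh i).map _
  have hPKz : ∀ (x : Fin (n + 1) → 𝓞 K) (i : Fin N), aeval x (PK i) = aeval x (P i) := by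
    intro x i
    rw [hPK]
    simp only
    rw [aeval_map_algebraMap]
  have hcol := fun (v : Fin r → Fin (n + 1) → 𝓞 K) (i : Fin N) =>
    coloring W b hb0 hW M (GG v (PK i)).support (fun α => coeff α (GG v (PK i)))
      (GG_card v (PK i) (D i) d (hD i) (hPKh i))
  choose col hcol using hcol
  set S := sparseOff P G K b r V with hS
  have hex : ∀ q : S, ∃ w : (Fin r → ℕ) × (Fin r → Fin (n + 1) → {z // z ∈ V}),
      ∃ h : (fun i => algebraMap (𝓞 K) K (∑ j, (w.2 j i).1 * b ^ (w.1 j))) ≠ 0,
      q.1 = Projectivization.mk K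
        (fun i => algebraMap (𝓞 K) K (∑ j, (w.2 j i).1 * b ^ (w.1 j))) h ∧
      (∀ t, aeval (fun i => ∑ j, (w.2 j i).1 * b ^ (w.1 j)) (PK t) = 0) ∧
      aeval (fun i => algebraMap (𝓞 K) K (∑ j, (w.2 j i).1 * b ^ (w.1 j))) G ≠ 0 := by
    rintro ⟨q, x, h, hq, hz, hg, m, v, hv, hx⟩
    have hx' : x = fun i => ∑ j, v j i * b ^ (m j) := funext hx
    subst hx'
    exact ⟨(m, fun j i => ⟨v j i, hv j i⟩), h, hq, fun t => by rw [hPKz]; exact hz t, hg⟩
  choose w hw0 hwq hwz hwG using hex
  set F : S → (Fin r → Fin (n + 1) → {z // z ∈ V}) × (Fin N → Fin ((Nat.factorial M) ^ 2)) :=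
    fun q => ((w q).2, fun t => col (fun j i => ((w q).2 j i).1) t (fun α => ex (w q).1 α))
    with hF
  have hinj : Function.Injective F := by
    intro q q' hqq
    rw [hF] at hqq
    simp only [Prod.mk.injEq] at hqq
    obtain ⟨hc, hcl⟩ := hqq
    have hz := hwz q
    have hz' := hwz q'
    have h0' := hw0 q'
    have hq' := hwq q'
    rw [← hc] at hz' hcl
    have hcomp : ∀ t, ∀ u : ℤ, ∑ α ∈ (GG (fun j i => ((w q).2 j i).1) (PK t)).support.filter
        (fun α => ((ex (w q').1 α : ℕ) : ℤ) - ex (w q).1 α = u),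
        coeff α (GG (fun j i => ((w q).2 j i).1) (PK t)) * b ^ (ex (w q).1 α) = 0 := by
      intro t
      refine hcol (fun j i => ((w q).2 j i).1) t (fun α => ex (w q).1 α)
        (fun α => ex (w q').1 α) ?_ ?_ (congrFun hcl t)
      · rw [← eval_powV]
        exact hz t
      · rw [← eval_powV]
        exact hz' t
    obtain ⟨l, ⟨κ, hpb⟩, hpF⟩ := joinedC b (fun j i => ((w q).2 j i).1) (w q).1 (w q').1
    have hpP : ∀ t, aeval (cur (fun j i => ((w q).2 j i).1 * b ^ ((w q).1 j)) l) (PK t) = 0 :=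
      fun t => hpF (PK t) (D t) (hPKh t) (hcomp t)
    have hinjK := FaithfulSMul.algebraMap_injective (𝓞 K) K
    let ψ : Polynomial (𝓞 K) →+* Polynomial K := Polynomial.mapRingHom (algebraMap (𝓞 K) K)
    have hψinj : Function.Injective ψ := Polynomial.map_injective _ hinjK
    let c : Fin r → Fin (n + 1) → K :=
      fun j i => algebraMap (𝓞 K) K (((w q).2 j i).1 * b ^ ((w q).1 j))
    have hψ : ∀ i, ψ (cur (fun j i => ((w q).2 j i).1 * b ^ ((w q).1 j)) l i) = cur c l i := by
      intro i
      unfold cur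
      rw [map_sum]
      refine Finset.sum_congr rfl fun j _ => ?_
      simp [ψ, c]
    have hxc : (fun i => algebraMap (𝓞 K) K (∑ j, ((w q).2 j i).1 * b ^ ((w q).1 j))) =
        fun i => ∑ j, c j i := by
      funext i
      rw [map_sum]
    have hconst : ∀ i j, cur c l i * Polynomial.C (∑ t, c t j) =
        cur c l j * Polynomial.C (∑ t, c t i) := by
      by_contra hcon
      push Not at hcon
      obtain ⟨i, j, hij⟩ := hcon
      apply hwG q
      rw [hxc]
      refine hG3 K c l ?_ ⟨i, j, hij⟩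
      rintro _ ⟨_, ⟨t, rfl⟩, rfl⟩
      have h1 := congrArg ψ (hpP t)
      rw [hPK] at h1
      simp only at h1
      rw [map_zero, aeval_map_algebraMap, aeval_def, MvPolynomial.hom_eval₂] at h1
      rw [aeval_def, MvPolynomial.eval₂_map, ← h1]
      have h2 : ψ ∘ cur (fun j i => ((w q).2 j i).1 * b ^ ((w q).1 j)) l = cur c l := funext hψ
      have h3 : (algebraMap k (Polynomial K)).comp (algebraMap (𝓞 k) k) =
          ψ.comp (algebraMap (𝓞 k) (Polynomial (𝓞 K))) := by
        refine RingHom.ext fun a => ?_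
        show algebraMap k (Polynomial K) (algebraMap (𝓞 k) k a) =
          ψ (algebraMap (𝓞 k) (Polynomial (𝓞 K)) a)
        rw [Polynomial.algebraMap_apply, Polynomial.algebraMap_apply]
        have h5 : ψ (Polynomial.C (algebraMap (𝓞 k) (𝓞 K) a)) =
            Polynomial.C (algebraMap (𝓞 K) K (algebraMap (𝓞 k) (𝓞 K) a)) := by
          show Polynomial.map _ (Polynomial.C _) = _
          rw [Polynomial.map_C]
        rw [h5]
        rfl
      rw [h3]
      congr 1
      exact h2.symm
    have hbk : b ^ κ ≠ 0 := pow_ne_zero _ hb0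
    apply Subtype.ext
    rw [hwq q, hq']
    refine mk_eq _ _ _ _ fun i j => ?_
    rw [← hc]
    apply mul_left_cancel₀ hbk
    apply hinjK
    have h1 := congrArg (Polynomial.eval (algebraMap (𝓞 K) K b)) (hconst i j)
    rw [Polynomial.eval_mul, Polynomial.eval_mul, Polynomial.eval_C, Polynomial.eval_C,
      ← hψ i, ← hψ j] at h1
    have h2 : ∀ i, (ψ (cur (fun j i => ((w q).2 j i).1 * b ^ ((w q).1 j)) l i)).eval
        (algebraMap (𝓞 K) K b) =
        algebraMap (𝓞 K) K (b ^ κ * ∑ j, ((w q).2 j i).1 * b ^ ((w q').1 j)) := by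
      intro i
      rw [← hpb i]
      show (Polynomial.map _ _).eval _ = _
      rw [Polynomial.eval_map, Polynomial.eval₂_at_apply]
    have h3 : ∀ i, ∑ t, c t i = algebraMap (𝓞 K) K (∑ j, ((w q).2 j i).1 * b ^ ((w q).1 j)) :=
      fun i => (congrFun hxc i).symm
    rw [h2, h2, h3, h3, ← map_mul, ← map_mul] at h1
    rw [show b ^ κ * ((∑ j, ((w q).2 j i).1 * b ^ ((w q).1 j)) *
        ∑ j', ((w q).2 j' j).1 * b ^ ((w q').1 j')) =
        (b ^ κ * ∑ j', ((w q).2 j' j).1 * b ^ ((w q').1 j')) *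
        ∑ j, ((w q).2 j i).1 * b ^ ((w q).1 j) by ring, ← h1]
    congr 1
    ring
  have hfin : Finite S := Finite.of_injective F hinj
  have hcard : Nat.card S ≤ V.card ^ ((n + 1) * r) * ((Nat.factorial M) ^ 2) ^ N := by
    have h1 := Nat.card_le_card_of_injective F hinj
    refine h1.trans (le_of_eq ?_)
    rw [Nat.card_eq_fintype_card, Fintype.card_prod]
    congr 1
    · rw [Fintype.card_fun, Fintype.card_fun, Fintype.card_coe, Fintype.card_fin,
        Fintype.card_fin, ← pow_mul]
    · rw [Fintype.card_fun, Fintype.card_fin, Fintype.card_fin]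
  have hSfin : S.Finite := Set.toFinite S
  rw [← hSfin.cast_ncard_eq]
  have h3 : S.ncard ≤ V.card ^ ((n + 1) * r) * ((Nat.factorial M) ^ 2) ^ N := hcard
  exact_mod_cast h3

end Pool.Agent.H533R3.SL
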